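import Pool.Agent.Helper85.FI.Defs

/-!
# FI-13: `F₂ × F₂` is not LERF

PROOF. `a, t` the generators, `r = t a² t⁻¹ a⁻³`, `z = [t a t⁻¹, a] = (t a t⁻¹) a (t a t⁻¹)⁻¹ a⁻¹`.
`L` = the subgroup of `F₂ × F₂` generated by `(a, a), (t, t), (r, 1)`.
(1) `(z, 1) ∉ L`: every element `(u, v)` of `L` satisfies `u ≡ v` modulo the normal closure of `r`, so it is enough that `z` is
not in the normal closure of `r`; for this find permutations `a, t` of a set with `t a² t⁻¹ = a³` and
`z ≠ 1`. (For example on `X = ℤ × ℕ`-like sets `a` = translation by one in the first coordinate; `a²` and `a³` have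
countably many infinite cycles each, and `t` may map the cycles of `a²` to the cycles of `a³` by any bijection of the sets
of cycles: let `t` map `(even, column 0)` to `(0 mod 3, column 0)` by `(2k, 0) ↦ (3k, 0)`, `(2k+1, 0) ↦ (3k, 1)` and so on. Or
use Mathlib's `HNNExtension` and its normal forms (Britton), with `G = ℤ`, subgroups `2ℤ`, `3ℤ`. Or any other faithful enough
representation.)
(2) Every subgroup `K` of finite index with `L ≤ K` contains `(z, 1)`: replace `K` by `L W`, `W` the normal core of `K`. Let `P` be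
the quotient by `W`, a finite group, `q` the projection. Put `R₁` = image of the normal closure of `(r, 1)` under conjugation by
`F₂ × 1`; it is contained in `q(L)`, since conjugation of `(r, 1)` by `(u, 1)` is the same as conjugation by
`(u, u) ∈ L ·` (words in `(a,a), (t,t)`). In the finite group `Q = q(F₂ × 1) / R₁` the images of `a, t` satisfy
`t a² t⁻¹ = a³`, so `a²` and `a³` have the same order, so `gcd(m, 2) = gcd(m, 3)` for the order `m` of `a`, so both are `1`,
`a ∈ ⟨a²⟩`, `t a t⁻¹ ∈ ⟨t a² t⁻¹⟩ = ⟨a³⟩` commutes with `a`: `z = 1` in `Q`, i.e. `q (z, 1) ∈ R₁ ≤ q(L)`.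
-/

namespace Helper85.FI

open Helper85.NS

/-- In a finite group, `t a² t⁻¹ = a³` forces `t a t⁻¹` to commute with `a`. -/
theorem bs_comm {Q : Type*} [Group Q] [Finite Q] {a t : Q} (h : t * a ^ 2 * t⁻¹ = a ^ 3) :
    (t * a * t⁻¹) * a * (t * a * t⁻¹)⁻¹ * a⁻¹ = 1 := by
  have h1 : orderOf (a ^ 2) = orderOf (a ^ 3) := by
    rw [← h]
    exact (MulEquiv.orderOf_eq (MulAut.conj t) (a ^ 2)).symm
  rw [orderOf_pow, orderOf_pow] at h1
  have hpos : 0 < orderOf a := orderOf_pos a
  have hg : Nat.gcd (orderOf a) 2 = Nat.gcd (orderOf a) 3 := by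
    have d2 : Nat.gcd (orderOf a) 2 ∣ orderOf a := Nat.gcd_dvd_left _ _
    have d3 : Nat.gcd (orderOf a) 3 ∣ orderOf a := Nat.gcd_dvd_left _ _
    have e2 := Nat.div_mul_cancel d2
    have e3 := Nat.div_mul_cancel d3
    have hq : 0 < orderOf a / Nat.gcd (orderOf a) 3 :=
      Nat.div_pos (Nat.le_of_dvd hpos d3) (Nat.pos_of_dvd_of_pos d3 hpos)
    rw [h1] at e2
    exact Nat.eq_of_mul_eq_mul_left hq (e2.trans e3.symm)
  have hc : Nat.Coprime (orderOf a) 2 := by
    have h2 : Nat.gcd (orderOf a) 2 ∣ 2 := Nat.gcd_dvd_right _ _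
    have h3 : Nat.gcd (orderOf a) 2 ∣ 3 := by rw [hg]; exact Nat.gcd_dvd_right _ _
    have : Nat.gcd (orderOf a) 2 ∣ 1 := by
      have := Nat.dvd_sub h3 h2
      simpa using this
    exact Nat.dvd_one.1 this
  obtain ⟨k, hk⟩ := exists_pow_eq_self_of_coprime hc.symm
  have h4 : t * a * t⁻¹ = (a ^ 3) ^ k := by
    rw [← h, conj_pow, hk]
  rw [h4, ← pow_mul]
  have : a ^ (3 * k) * a = a * a ^ (3 * k) := by rw [← pow_succ, ← pow_succ']
  rw [this]
  group

/-- the subgroups `k ℤ` -/
noncomputable def pw (k : ℤ) : Subgroup (Multiplicative ℤ) :=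
  (zpowGroupHom k : Multiplicative ℤ →* Multiplicative ℤ).range

theorem zpow_inj {k : ℤ} (hk : k ≠ 0) :
    Function.Injective (zpowGroupHom k : Multiplicative ℤ →* Multiplicative ℤ) := by
  intro x y h
  have h' : x.toAdd * k = y.toAdd * k := by
    have := congrArg Multiplicative.toAdd h
    simpa [zpowGroupHom, mul_comm] using this
  have := mul_right_cancel₀ hk h'
  exact Multiplicative.toAdd.injective this

/-- the isomorphism `2 ℤ → 3 ℤ` -/
noncomputable def bsφ : pw 2 ≃* pw 3 :=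
  (MonoidHom.ofInjective (zpow_inj (k := 2) (by norm_num))).symm.trans
    (MonoidHom.ofInjective (zpow_inj (k := 3) (by norm_num)))

theorem bsφ_apply (x : Multiplicative ℤ) (h : x ^ (2 : ℤ) ∈ pw 2) :
    (bsφ ⟨x ^ (2 : ℤ), h⟩ : Multiplicative ℤ) = x ^ (3 : ℤ) := by
  have h1 : (⟨x ^ (2 : ℤ), h⟩ : pw 2) =
      MonoidHom.ofInjective (zpow_inj (k := 2) (by norm_num)) x := by
    apply Subtype.ext
    rfl
  rw [h1]
  have h2 : bsφ (MonoidHom.ofInjective (zpow_inj (k := 2) (by norm_num)) x) =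
      MonoidHom.ofInjective (zpow_inj (k := 3) (by norm_num)) x :=
    congrArg (MonoidHom.ofInjective (zpow_inj (k := 3) (by norm_num)))
      ((MonoidHom.ofInjective (zpow_inj (k := 2) (by norm_num))).symm_apply_apply x)
  rw [h2]
  rfl

/-- the Baumslag-Solitar group -/
abbrev BS23 : Type := HNNExtension (Multiplicative ℤ) (pw 2) (pw 3) bsφ

/-- the generator `a` -/
noncomputable def bsa : BS23 := HNNExtension.of (Multiplicative.ofAdd 1)

/-- the stable letter -/
noncomputable def bst : BS23 := HNNExtension.t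

theorem bs_rel : bst * bsa ^ 2 * bst⁻¹ = bsa ^ 3 := by
  have h : (Multiplicative.ofAdd (1 : ℤ)) ^ (2 : ℤ) ∈ pw 2 := ⟨_, rfl⟩
  have h1 := HNNExtension.equiv_eq_conj (φ := bsφ) ⟨_, h⟩
  rw [bsφ_apply] at h1
  simp only [map_zpow] at h1
  have e2 : bsa ^ 2 = bsa ^ (2 : ℤ) := by norm_cast
  have e3 : bsa ^ 3 = bsa ^ (3 : ℤ) := by norm_cast
  rw [e2, e3]
  exact h1.symm

theorem mem_pw {k : ℤ} {x : Multiplicative ℤ} : x ∈ pw k ↔ k ∣ x.toAdd := by
  constructor
  · rintro ⟨y, rfl⟩
    exact ⟨y.toAdd, by simp [zpowGroupHom]⟩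
  · rintro ⟨m, hm⟩
    refine ⟨Multiplicative.ofAdd m, ?_⟩
    apply Multiplicative.toAdd.injective
    simp [zpowGroupHom, hm]

theorem bs_ne : (bst * bsa * bst⁻¹) * bsa * (bst * bsa * bst⁻¹)⁻¹ * bsa⁻¹ ≠ 1 := by
  intro h
  let w : HNNExtension.NormalWord.ReducedWord (Multiplicative ℤ) (pw 2) (pw 3) :=
    { head := 1
      toList := [(1, Multiplicative.ofAdd 1), (-1, Multiplicative.ofAdd 1),
        (1, Multiplicative.ofAdd (-1)), (-1, Multiplicative.ofAdd (-1))]
      chain := by
        simp [mem_pw] }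
  have hw : w.prod bsφ = 1 := by
    rw [← h]
    simp [w, HNNExtension.NormalWord.ReducedWord.prod, bsa, bst, mul_assoc]
  have h1 := HNNExtension.ReducedWord.toList_eq_nil_of_mem_of_range bsφ w
    (by rw [hw]; exact Subgroup.one_mem _)
  simp [w] at h1

theorem exists_nonseparable_prod :
    ∃ L : Subgroup (FreeGroup (Fin 2) × FreeGroup (Fin 2)), L.FG ∧ ¬ Separable L := by
  classical
  set a : FreeGroup (Fin 2) := FreeGroup.of 0 with ha
  set t : FreeGroup (Fin 2) := FreeGroup.of 1 with ht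
  set r : FreeGroup (Fin 2) := t * a ^ 2 * t⁻¹ * (a ^ 3)⁻¹ with hr
  set z : FreeGroup (Fin 2) := (t * a * t⁻¹) * a * (t * a * t⁻¹)⁻¹ * a⁻¹ with hz
  set S : Set (FreeGroup (Fin 2) × FreeGroup (Fin 2)) := {(a, a), (t, t), (r, 1)} with hS
  refine ⟨Subgroup.closure S, ⟨{(a, a), (t, t), (r, 1)}, by simp [hS]⟩, ?_⟩
  intro hsep
  -- `(z, 1)` is not in the subgroup
  have hz1 : ((z, 1) : FreeGroup (Fin 2) × FreeGroup (Fin 2)) ∉ Subgroup.closure S := by
    intro hmem
    let ρ : FreeGroup (Fin 2) →* BS23 := FreeGroup.lift ![bsa, bst]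
    have ρa : ρ a = bsa := by simp [ρ, ha]
    have ρt : ρ t = bst := by simp [ρ, ht]
    have hle : Subgroup.closure S ≤
        MonoidHom.eqLocus (ρ.comp (MonoidHom.fst _ _)) (ρ.comp (MonoidHom.snd _ _)) := by
      rw [Subgroup.closure_le]
      rintro p (rfl | rfl | rfl)
      · rfl
      · rfl
      · show ρ r = ρ 1
        rw [hr, map_one, map_mul, map_mul, map_mul, map_inv, map_inv, map_pow, map_pow, ρa, ρt,
          bs_rel]
        group
    have h1 : ρ z = ρ 1 := hle hmem
    rw [hz, map_one] at h1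
    simp only [map_mul, map_inv, ρa, ρt] at h1
    exact bs_ne (by simpa using h1)
  obtain ⟨K, hK, hLK, hzK⟩ := hsep _ hz1
  -- the normal subgroup of finite index
  set N : Subgroup (FreeGroup (Fin 2)) := K.comap (MonoidHom.inl _ _) with hN
  have hdiag : ∀ w : FreeGroup (Fin 2), ((w, w) : FreeGroup (Fin 2) × FreeGroup (Fin 2)) ∈ K := by
    intro w
    induction w using FreeGroup.induction_on with
    | C1 => exact K.one_mem
    | of i =>
      apply hLK
      apply Subgroup.subset_closure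
      fin_cases i
      · left; rfl
      · right; left; rfl
    | inv_of i hi =>
      exact K.inv_mem hi
    | mul x y hx hy => exact K.mul_mem hx hy
  have hNn : N.Normal := by
    constructor
    intro u hu w
    have h1 := K.mul_mem (K.mul_mem (hdiag w) hu) (K.inv_mem (hdiag w))
    simpa [hN] using h1
  have hfi : N.FiniteIndex := by
    constructor
    rw [hN, Subgroup.index_comap]
    exact (inferInstance : (K.subgroupOf _).FiniteIndex).index_ne_zero
  have hfin : Finite (FreeGroup (Fin 2) ⧸ N) := Subgroup.finite_quotient_of_finiteIndex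
  have hrN : r ∈ N := by
    show ((r, 1) : FreeGroup (Fin 2) × FreeGroup (Fin 2)) ∈ K
    exact hLK (Subgroup.subset_closure (by simp [hS]))
  let q : FreeGroup (Fin 2) →* FreeGroup (Fin 2) ⧸ N := QuotientGroup.mk' N
  have hqr : q r = 1 := (QuotientGroup.eq_one_iff r).2 hrN
  have hrel : q t * q a ^ 2 * (q t)⁻¹ = q a ^ 3 := by
    rw [hr, map_mul, map_inv, mul_inv_eq_one] at hqr
    simpa using hqr
  have hqz : q z = 1 := by
    rw [hz]
    simpa using bs_comm hrel
  exact hzK ((QuotientGroup.eq_one_iff z).1 hqz)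

end Helper85.FI
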