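import Pool.Agent.Helper85.FI.SepBasic

/-!
# FI-15: separable commensurated subgroups

PROOF of `exists_normal_of_separable`. For `g ∈ S ∪ S⁻¹` let `A^g = g A g⁻¹`; `A ⊓ A^g` has finite index in `A^g` (for `g⁻¹`
conjugate the other hypothesis). Choose representatives `r_{g,j}` of the finitely many cosets of `A ⊓ A^g` in `A^g` which
are different from `A ⊓ A^g` itself; `r_{g,j} ∉ A`. By `separable_iff` (finitely many elements, intersect) there is a normal
subgroup `N` of finite index with `r_{g,j} ∉ A N` for all of them. Then `A^g ⊓ N ≤ A`: let `x ∈ A^g ⊓ N`, `x = r y` with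
`y ∈ A ⊓ A^g`, `r` a representative; if `r ∉ A` then `r = x y⁻¹ ∈ N A = A N`, contradiction; so `r ∈ A ⊓ A^g`, `x ∈ A`. So
`g (A ⊓ N) g⁻¹ = A^g ⊓ N ≤ A ⊓ N` for all `g ∈ S ∪ S⁻¹`, hence `B = A ⊓ N` is normal (the normalizer contains `S`), and
`B.relIndex A ≠ 0`.
PROOF of `exists_normal_of_edge`. `G = Amalgam` is generated by the images of finite generating sets of `Γ₁` and `Γ₂`. `A' = ` image
of `A` = `i₁(A)` in `Γ₁` has finite index in the image of `Γ₁`; for `g` in the image of `Γ₁` both `A'` and `g A' g⁻¹` have finite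
index in the image of `Γ₁`, so they are commensurable; the same for `Γ₂`. Let `B'` be given by the first theorem and
`B` its preimage in `A`.
-/

namespace Helper85.FI

open Helper85.NS

/-- For a separable subgroup `A` and a subgroup `C` with `A ⊓ C` of finite index in `C` there is a
normal subgroup `N` of finite index with `C ⊓ N ≤ A`. -/
theorem exists_inf_le {G : Type} [Group G] (A C : Subgroup G) (hA : Separable A)
    (h : A.relIndex C ≠ 0) :
    ∃ N : Subgroup G, N.Normal ∧ N.FiniteIndex ∧ C ⊓ N ≤ A := by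
  classical
  have hfin : Finite (C ⧸ A.subgroupOf C) := by
    have hi : (A.subgroupOf C).index ≠ 0 := h
    exact Nat.finite_of_card_ne_zero hi
  have key : ∀ q : C ⧸ A.subgroupOf C, ∃ N : Subgroup G, N.Normal ∧ N.FiniteIndex ∧
      ((q.out : G) ∉ A → (q.out : G) ∉ A ⊔ N) := by
    intro q
    by_cases hq : (q.out : G) ∈ A
    · exact ⟨⊤, inferInstance, inferInstance, fun h' => absurd hq h'⟩
    · obtain ⟨N, h1, h2, h3⟩ := (separable_iff A).1 hA _ hq
      exact ⟨N, h1, h2, fun _ => h3⟩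
  choose N hN1 hN2 hN3 using key
  refine ⟨⨅ q, N q, ?_, ?_, ?_⟩
  · exact Subgroup.normal_iInf_normal hN1
  · exact Subgroup.finiteIndex_iInf hN2
  · rintro x ⟨hxC, hxN⟩
    have hxN' : ∀ q, x ∈ N q := fun q => (Subgroup.mem_iInf.1 hxN) q
    set q : C ⧸ A.subgroupOf C := QuotientGroup.mk (⟨x, hxC⟩ : C) with hq
    have hy : (q.out)⁻¹ * (⟨x, hxC⟩ : C) ∈ A.subgroupOf C := by
      rw [← QuotientGroup.eq, QuotientGroup.out_eq', hq]
    rw [Subgroup.mem_subgroupOf] at hy
    simp only [Subgroup.coe_mul, InvMemClass.coe_inv] at hy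
    by_cases hr : (q.out : G) ∈ A
    · have := A.mul_mem hr hy
      simpa using this
    · exfalso
      apply hN3 q hr
      have e : (q.out : G) = x * (((q.out : G))⁻¹ * x)⁻¹ := by group
      rw [e]
      exact Subgroup.mul_mem _ (Subgroup.mem_sup_right (hxN' q))
        (Subgroup.mem_sup_left (A.inv_mem hy))

theorem exists_normal_of_separable {G : Type} [Group G] (S : Set G) (hS : S.Finite)
    (hS' : Subgroup.closure S = ⊤) (A : Subgroup G) (hA : Separable A)
    (h1 : ∀ g ∈ S, A.relIndex (A.map (MulAut.conj g).toMonoidHom) ≠ 0)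
    (h2 : ∀ g ∈ S, (A.map (MulAut.conj g).toMonoidHom).relIndex A ≠ 0) :
    ∃ B : Subgroup G, B ≤ A ∧ B.relIndex A ≠ 0 ∧ B.Normal := by
  classical
  have h3 : ∀ g ∈ S, A.relIndex (A.map (MulAut.conj g⁻¹).toMonoidHom) ≠ 0 := by
    intro g hg
    have e := Subgroup.relIndex_map_map_of_injective (A.map (MulAut.conj g).toMonoidHom) A
      (f := (MulAut.conj g⁻¹).toMonoidHom) (MulAut.conj g⁻¹).injective
    have e2 : (A.map (MulAut.conj g).toMonoidHom).map (MulAut.conj g⁻¹).toMonoidHom = A := by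
      rw [Subgroup.map_map]
      have : (MulAut.conj g⁻¹).toMonoidHom.comp (MulAut.conj g).toMonoidHom = MonoidHom.id G := by
        ext x
        simp [mul_assoc]
      rw [this, Subgroup.map_id]
    rw [e2] at e
    rw [e]
    exact h2 g hg
  have key1 : ∀ g : S, ∃ N : Subgroup G, N.Normal ∧ N.FiniteIndex ∧
      A.map (MulAut.conj (g : G)).toMonoidHom ⊓ N ≤ A :=
    fun g => exists_inf_le A _ hA (h1 g g.2)
  have key2 : ∀ g : S, ∃ N : Subgroup G, N.Normal ∧ N.FiniteIndex ∧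
      A.map (MulAut.conj (g : G)⁻¹).toMonoidHom ⊓ N ≤ A :=
    fun g => exists_inf_le A _ hA (h3 g g.2)
  choose N1 hN1 hN1' hN1'' using key1
  choose N2 hN2 hN2' hN2'' using key2
  have : Finite S := hS
  set N : Subgroup G := (⨅ g, N1 g) ⊓ (⨅ g, N2 g) with hN
  have hNn : N.Normal := by
    have := Subgroup.normal_iInf_normal hN1
    have := Subgroup.normal_iInf_normal hN2
    exact Subgroup.normal_inf_normal _ _
  have hNf : N.FiniteIndex := by
    have := Subgroup.finiteIndex_iInf hN1'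
    have := Subgroup.finiteIndex_iInf hN2'
    infer_instance
  have hl1 : ∀ g : S, N ≤ N1 g := fun g => inf_le_left.trans (iInf_le _ g)
  have hl2 : ∀ g : S, N ≤ N2 g := fun g => inf_le_right.trans (iInf_le _ g)
  refine ⟨A ⊓ N, inf_le_left, ?_, ?_⟩
  · rw [inf_comm, Subgroup.inf_relIndex_right]
    exact (inferInstance : (N.subgroupOf A).FiniteIndex).index_ne_zero
  · rw [← Subgroup.normalizer_eq_top_iff, eq_top_iff, ← hS', Subgroup.closure_le]
    intro g hg
    rw [SetLike.mem_coe, Subgroup.mem_normalizer_iff]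
    intro x
    constructor
    · rintro ⟨hxA, hxN⟩
      have hN' : g * x * g⁻¹ ∈ N := hNn.conj_mem x hxN g
      refine ⟨hN1'' ⟨g, hg⟩ ⟨⟨x, hxA, ?_⟩, hl1 ⟨g, hg⟩ hN'⟩, hN'⟩
      simp
    · rintro ⟨hxA, hxN⟩
      have hN' : x ∈ N := by
        have := hNn.conj_mem _ hxN g⁻¹
        simpa [mul_assoc] using this
      refine ⟨hN2'' ⟨g, hg⟩ ⟨⟨g * x * g⁻¹, hxA, ?_⟩, hl2 ⟨g, hg⟩ hN'⟩, hN'⟩
      simp [mul_assoc]

/-- The relative index of subgroups of finite index. -/
theorem relIndex_ne_zero_of_fi {G : Type} [Group G] (H K : Subgroup G) (hH : H.FiniteIndex) :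
    H.relIndex K ≠ 0 :=
  (inferInstance : (H.subgroupOf K).FiniteIndex).index_ne_zero

theorem comm_aux {Γ G : Type} [Group Γ] [Group G] (f : Γ →* G) (R : Subgroup Γ)
    (hR : R.FiniteIndex) (x : Γ) :
    (R.map f).relIndex ((R.map f).map (MulAut.conj (f x)).toMonoidHom) ≠ 0 ∧
      ((R.map f).map (MulAut.conj (f x)).toMonoidHom).relIndex (R.map f) ≠ 0 := by
  have e : (R.map f).map (MulAut.conj (f x)).toMonoidHom =
      (R.map (MulAut.conj x).toMonoidHom).map f := by
    rw [Subgroup.map_map, Subgroup.map_map]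
    congr 1
    ext y
    simp
  have hR' : (R.map (MulAut.conj x).toMonoidHom).FiniteIndex := by
    refine ⟨?_⟩
    have := Subgroup.index_map_equiv R (MulAut.conj x)
    have h0 := hR.index_ne_zero
    rw [← this] at h0
    exact h0
  rw [e, Subgroup.relIndex_map_map, Subgroup.relIndex_map_map]
  constructor
  · apply relIndex_ne_zero_of_fi
    have := hR
    exact Subgroup.finiteIndex_of_le (H := R) le_sup_left
  · apply relIndex_ne_zero_of_fi
    have := hR'
    exact Subgroup.finiteIndex_of_le (H := R.map (MulAut.conj x).toMonoidHom) le_sup_left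

theorem closure_amalgam {A Γ₁ Γ₂ : Type} [Group A] [Group Γ₁] [Group Γ₂] (i₁ : A →* Γ₁)
    (i₂ : A →* Γ₂) (S₁ : Set Γ₁) (S₂ : Set Γ₂) (h₁ : Subgroup.closure S₁ = ⊤)
    (h₂ : Subgroup.closure S₂ = ⊤) :
    Subgroup.closure (Amalgam.inl i₁ i₂ '' S₁ ∪ Amalgam.inr i₁ i₂ '' S₂) = ⊤ := by
  let π : Monoid.Coprod Γ₁ Γ₂ →* Amalgam i₁ i₂ := QuotientGroup.mk' _
  have hπ : Function.Surjective π := QuotientGroup.mk'_surjective _
  have e1 : Amalgam.inl i₁ i₂ = π.comp Monoid.Coprod.inl := rfl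
  have e2 : Amalgam.inr i₁ i₂ = π.comp Monoid.Coprod.inr := rfl
  rw [Subgroup.closure_union, ← MonoidHom.map_closure, ← MonoidHom.map_closure, h₁, h₂,
    ← MonoidHom.range_eq_map, ← MonoidHom.range_eq_map, e1, e2,
    MonoidHom.range_comp, MonoidHom.range_comp, ← Subgroup.map_sup,
    Monoid.Coprod.range_inl_sup_range_inr, ← MonoidHom.range_eq_map]
  exact MonoidHom.range_eq_top.2 hπ

theorem exists_normal_of_edge {A Γ₁ Γ₂ : Type} [Group A] [Group Γ₁] [Group Γ₂] (i₁ : A →* Γ₁)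
    (i₂ : A →* Γ₂) (h1 : i₁.range.FiniteIndex) (h2 : i₂.range.FiniteIndex)
    (hΓ₁ : Group.FG Γ₁) (hΓ₂ : Group.FG Γ₂) (hs : Separable (edge i₁ i₂).range) :
    ∃ B : Subgroup A, B.FiniteIndex ∧ (B.map (edge i₁ i₂)).Normal := by
  classical
  obtain ⟨S₁, hS₁⟩ := (Group.fg_iff.1 hΓ₁)
  obtain ⟨S₂, hS₂⟩ := (Group.fg_iff.1 hΓ₂)
  have er1 : (edge i₁ i₂).range = i₁.range.map (Amalgam.inl i₁ i₂) := by
    unfold edge
    rw [MonoidHom.range_comp]
  have er2 : (edge i₁ i₂).range = i₂.range.map (Amalgam.inr i₁ i₂) := by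
    rw [← MonoidHom.range_comp]
    congr 1
    ext a
    exact Amalgam.inl_eq_inr i₁ i₂ a
  obtain ⟨B', hB1, hB2, hB3⟩ := exists_normal_of_separable
    (Amalgam.inl i₁ i₂ '' S₁ ∪ Amalgam.inr i₁ i₂ '' S₂)
    ((hS₁.2.image _).union (hS₂.2.image _))
    (closure_amalgam i₁ i₂ _ _ hS₁.1 hS₂.1) (edge i₁ i₂).range hs
    (by
      rintro g (⟨x, _, rfl⟩ | ⟨x, _, rfl⟩)
      · rw [er1]
        exact (comm_aux _ _ h1 x).1
      · rw [er2]
        exact (comm_aux _ _ h2 x).1)
    (by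
      rintro g (⟨x, _, rfl⟩ | ⟨x, _, rfl⟩)
      · rw [er1]
        exact (comm_aux _ _ h1 x).2
      · rw [er2]
        exact (comm_aux _ _ h2 x).2)
  refine ⟨B'.comap (edge i₁ i₂), ⟨?_⟩, ?_⟩
  · rw [Subgroup.index_comap]
    exact hB2
  · rw [Subgroup.map_comap_eq, inf_eq_right.2 hB1]
    exact hB3

end Helper85.FI
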