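import Pool.Agent.Helper85.NS.Am

/-!
# Amalgams along subgroups of finite index: definitions

`LERF`, `FPSep`, and crossed homomorphisms with values in `ℤ[β × H ⧸ E]`.
-/

namespace Helper85.FI

open Helper85.NS

/-- Every finitely generated subgroup is separable. -/
def LERF (G : Type*) [Group G] : Prop := ∀ H : Subgroup G, H.FG → Separable H

/-- Every finitely presented subgroup is separable. -/
def FPSep (G : Type*) [Group G] : Prop :=
  ∀ H : Subgroup G, Group.IsFinitelyPresented H → Separable H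

/-- The action of `h : H` on the permutation module `ℤ[β × H ⧸ E]`. -/
noncomputable def act {H β : Type} [Group H] (E : Subgroup H) (h : H)
    (c : β × (H ⧸ E) →₀ ℤ) : β × (H ⧸ E) →₀ ℤ :=
  c.mapDomain fun p => (p.1, h • p.2)

/-- Crossed homomorphisms `H → ℤ[β × H ⧸ E]`. -/
def IsDer {H β : Type} [Group H] (E : Subgroup H) (D : H → (β × (H ⧸ E) →₀ ℤ)) : Prop :=
  ∀ g h, D (g * h) = D g + act E g (D h)

/-- The projection `ℤ[β × H ⧸ E] → ℤ[β × H ⧸ N]` for `E ≤ N`. -/
noncomputable def proj {H β : Type} [Group H] {E N : Subgroup H} (hEN : E ≤ N)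
    (c : β × (H ⧸ E) →₀ ℤ) : β × (H ⧸ N) →₀ ℤ :=
  c.mapDomain fun p => (p.1, Subgroup.quotientMapOfLE hEN p.2)

/-- The canonical homomorphism from the edge group to the amalgam. -/
def edge {A Γ₁ Γ₂ : Type} [Group A] [Group Γ₁] [Group Γ₂] (i₁ : A →* Γ₁) (i₂ : A →* Γ₂) :
    A →* Amalgam i₁ i₂ :=
  (Amalgam.inl i₁ i₂).comp i₁

end Helper85.FI
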