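import Pool.Agent.Helper85.FI.Defs

/-!
# FI-11: the double of a group along a subgroup

PROOF. `α = {q : Γ ⧸ A // q ≠ 1}`; put `x q : FreeGroup α` = generator if `q ≠ 1`, and `x 1 = 1`. `r ∈ Γ` acts on `FreeGroup α` by
the endomorphism `θ_r : of q ↦ (x r)⁻¹ * x (r q)` (`x r` means `x` of the coset of `r`); then `θ_r (x q) = (x r)⁻¹ x (r q)` for
all `q` and `θ_{r s} = θ_r ∘ θ_s`, `θ_1 = 1`: a homomorphism `φ : Γ → MulAut (FreeGroup α)`. If `r ∈ A.normalCore`, then
`r q = q` for all `q` and `x r = 1`, so `φ r = 1`.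
`e : Amalgam → FreeGroup α ⋊ Γ` by `Amalgam.lift`: first factor `γ ↦ ⟨x γ, γ⟩` (a homomorphism:
`⟨x γ, γ⟩ ⟨x δ, δ⟩ = ⟨x γ * (x γ)⁻¹ * x (γ δ), γ δ⟩`), second factor `γ ↦ ⟨1, γ⟩ = inr γ`; they agree on `A`.
Inverse: `FreeGroup α → Amalgam`, `of q ↦ inl g * (inr g)⁻¹` for any representative `g` of `q` (independent of it), and
`Γ → Amalgam`, `inr`; compatibility: `inr r (inl g (inr g)⁻¹) (inr r)⁻¹ = (inl r (inr r)⁻¹)⁻¹ (inl (r g) (inr (r g))⁻¹)`.
(`SemidirectProduct.lift`.)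
-/

namespace Helper85.FI

open Helper85.NS

section Dbl

variable {Γ : Type} [Group Γ] (A : Subgroup Γ)

/-- the base point -/
private abbrev dOrig : Γ ⧸ A := ((1 : Γ) : Γ ⧸ A)

open Classical in
/-- the generator attached to a coset -/
private noncomputable def dX (q : Γ ⧸ A) : FreeGroup {q : Γ ⧸ A // q ≠ ((1 : Γ) : Γ ⧸ A)} :=
  if h : q ≠ ((1 : Γ) : Γ ⧸ A) then FreeGroup.of ⟨q, h⟩ else 1

private theorem dX_one : dX A (dOrig A) = 1 := by
  unfold dX
  rw [dif_neg (fun h => h rfl)]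

private theorem dX_coe (q : {q : Γ ⧸ A // q ≠ ((1 : Γ) : Γ ⧸ A)}) :
    dX A q.1 = FreeGroup.of q := by
  unfold dX
  rw [dif_pos q.2]

private noncomputable def dT (r : Γ) : FreeGroup {q : Γ ⧸ A // q ≠ ((1 : Γ) : Γ ⧸ A)} →*
    FreeGroup {q : Γ ⧸ A // q ≠ ((1 : Γ) : Γ ⧸ A)} :=
  FreeGroup.lift fun q => (dX A (r • dOrig A))⁻¹ * dX A (r • q.1)

private theorem dT_x (r : Γ) (q : Γ ⧸ A) :
    dT A r (dX A q) = (dX A (r • dOrig A))⁻¹ * dX A (r • q) := by
  by_cases h : q = dOrig A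
  · subst h
    rw [dX_one, map_one, inv_mul_cancel]
  · have h1 := dX_coe A ⟨q, h⟩
    simp only at h1
    rw [h1]
    unfold dT
    rw [FreeGroup.lift_apply_of]

private theorem dT_mul (r s : Γ) : dT A (r * s) = (dT A r).comp (dT A s) := by
  ext q
  rw [← dX_coe, MonoidHom.comp_apply, dT_x, dT_x, map_mul, map_inv, dT_x, dT_x]
  simp only [mul_smul]
  group

private theorem dT_one : dT A 1 = MonoidHom.id _ := by
  ext q
  rw [← dX_coe, dT_x, MonoidHom.id_apply, one_smul, one_smul, dX_one, inv_one, one_mul]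

private noncomputable def dPhi :
    Γ →* MulAut (FreeGroup {q : Γ ⧸ A // q ≠ ((1 : Γ) : Γ ⧸ A)}) :=
  MonoidHom.mk' (fun r => MonoidHom.toMulEquiv (dT A r) (dT A r⁻¹)
    (by rw [← dT_mul, inv_mul_cancel, dT_one]) (by rw [← dT_mul, mul_inv_cancel, dT_one])) (by
    intro r s
    ext z
    change dT A (r * s) z = dT A r (dT A s z)
    rw [dT_mul]
    rfl)

private theorem dPhi_apply (r : Γ) (z : FreeGroup {q : Γ ⧸ A // q ≠ ((1 : Γ) : Γ ⧸ A)}) :
    dPhi A r z = dT A r z := rfl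

private theorem dSmul_orig (r : Γ) : r • dOrig A = ((r : Γ) : Γ ⧸ A) := by
  change ((r * 1 : Γ) : Γ ⧸ A) = _
  rw [mul_one]

private noncomputable def dF1 :
    Γ →* FreeGroup {q : Γ ⧸ A // q ≠ ((1 : Γ) : Γ ⧸ A)} ⋊[dPhi A] Γ :=
  MonoidHom.mk' (fun γ => ⟨dX A (γ • dOrig A), γ⟩) (by
    intro r s
    ext
    · rw [SemidirectProduct.mul_left]
      change dX A ((r * s) • dOrig A) = dX A (r • dOrig A) * dPhi A r (dX A (s • dOrig A))
      rw [dPhi_apply, dT_x, mul_smul, mul_inv_cancel_left]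
    · rw [SemidirectProduct.mul_right])

private theorem dF1_apply (γ : Γ) : dF1 A γ = ⟨dX A (γ • dOrig A), γ⟩ := rfl

private noncomputable def dE :
    Amalgam A.subtype A.subtype →* FreeGroup {q : Γ ⧸ A // q ≠ ((1 : Γ) : Γ ⧸ A)} ⋊[dPhi A] Γ :=
  Amalgam.lift A.subtype A.subtype (dF1 A) SemidirectProduct.inr (by
    intro a
    rw [dF1_apply]
    ext
    · change dX A ((a : Γ) • dOrig A) = 1
      rw [dSmul_orig, (QuotientGroup.eq_one_iff (N := ⊥) (1 : Γ)).2 rfl |> fun _ =>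
        (QuotientGroup.eq (s := A) (a := (a : Γ)) (b := 1)).2 (by
          rw [mul_one]; exact A.inv_mem a.2)]
      exact dX_one A
    · rfl)

private noncomputable def dY (q : Γ ⧸ A) : Amalgam A.subtype A.subtype :=
  Amalgam.inl A.subtype A.subtype q.out * (Amalgam.inr A.subtype A.subtype q.out)⁻¹

private theorem dY_mk (g : Γ) : dY A (g : Γ ⧸ A) =
    Amalgam.inl A.subtype A.subtype g * (Amalgam.inr A.subtype A.subtype g)⁻¹ := by
  obtain ⟨a, ha⟩ := QuotientGroup.mk_out_eq_mul A g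
  unfold dY
  rw [ha, map_mul, map_mul]
  have h := Amalgam.inl_eq_inr A.subtype A.subtype a
  have h' : Amalgam.inl A.subtype A.subtype (a : Γ) = Amalgam.inr A.subtype A.subtype (a : Γ) := h
  rw [h']
  group

private theorem dY_orig : dY A (dOrig A) = 1 := by
  rw [dY_mk, map_one, map_one]
  group

private noncomputable def dG1 :
    FreeGroup {q : Γ ⧸ A // q ≠ ((1 : Γ) : Γ ⧸ A)} →* Amalgam A.subtype A.subtype :=
  FreeGroup.lift fun q => dY A q.1

private theorem dG1_x (q : Γ ⧸ A) : dG1 A (dX A q) = dY A q := by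
  by_cases h : q = dOrig A
  · subst h
    rw [dX_one, map_one, dY_orig]
  · have h1 := dX_coe A ⟨q, h⟩
    simp only at h1
    rw [h1]
    unfold dG1
    rw [FreeGroup.lift_apply_of]

private noncomputable def dG :
    FreeGroup {q : Γ ⧸ A // q ≠ ((1 : Γ) : Γ ⧸ A)} ⋊[dPhi A] Γ →* Amalgam A.subtype A.subtype :=
  SemidirectProduct.lift (dG1 A) (Amalgam.inr A.subtype A.subtype) (by
    intro r
    ext q
    rw [MonoidHom.comp_apply, MonoidHom.comp_apply]
    change dG1 A (dT A r (FreeGroup.of q)) =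
      Amalgam.inr A.subtype A.subtype r * dG1 A (FreeGroup.of q) *
        (Amalgam.inr A.subtype A.subtype r)⁻¹
    rw [← dX_coe, dT_x, map_mul, map_inv, dG1_x, dG1_x, dG1_x]
    obtain ⟨⟨g⟩, hq⟩ := q
    change (dY A (r • dOrig A))⁻¹ * dY A ((r * g : Γ) : Γ ⧸ A) = _ * dY A ((g : Γ) : Γ ⧸ A) * _
    rw [dSmul_orig, dY_mk, dY_mk, dY_mk, map_mul, map_mul]
    group)

end Dbl

theorem exists_double {Γ : Type} [Group Γ] (A : Subgroup Γ) :
    ∃ φ : Γ →* MulAut (FreeGroup {q : Γ ⧸ A // q ≠ ((1 : Γ) : Γ ⧸ A)}),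
      A.normalCore ≤ φ.ker ∧ Nonempty (Amalgam A.subtype A.subtype ≃*
        FreeGroup {q : Γ ⧸ A // q ≠ ((1 : Γ) : Γ ⧸ A)} ⋊[φ] Γ) := by
  refine ⟨dPhi A, ?_, ⟨MonoidHom.toMulEquiv (dE A) (dG A) ?_ ?_⟩⟩
  · intro r hr
    rw [MonoidHom.mem_ker]
    have hfix : ∀ q : Γ ⧸ A, r • q = q := by
      rintro ⟨g⟩
      change ((r * g : Γ) : Γ ⧸ A) = ((g : Γ) : Γ ⧸ A)
      rw [QuotientGroup.eq]
      have h1 := hr g⁻¹
      rw [inv_inv] at h1
      have h2 := A.inv_mem h1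
      have h3 : (g⁻¹ * r * g)⁻¹ = (r * g)⁻¹ * g := by group
      rwa [h3] at h2
    have h0 : dT A r = MonoidHom.id _ := by
      ext q
      rw [← dX_coe, dT_x, MonoidHom.id_apply, hfix, hfix, dX_one, inv_one, one_mul]
    ext z
    rw [dPhi_apply, h0]
    rfl
  · apply Amalgam.hom_ext
    · intro γ
      rw [MonoidHom.comp_apply, MonoidHom.id_apply]
      have h1 : dE A (Amalgam.inl A.subtype A.subtype γ) = dF1 A γ := rfl
      rw [h1, dF1_apply, SemidirectProduct.mk_eq_inl_mul_inr, map_mul]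
      have h2 : dG A (SemidirectProduct.inl (dX A (γ • dOrig A))) = dG1 A (dX A (γ • dOrig A)) :=
        SemidirectProduct.lift_inl _ _ _ _
      have h3 : dG A (SemidirectProduct.inr γ) = Amalgam.inr A.subtype A.subtype γ :=
        SemidirectProduct.lift_inr _ _ _ _
      rw [h2, h3, dG1_x, dSmul_orig, dY_mk, inv_mul_cancel_right]
    · intro γ
      rw [MonoidHom.comp_apply, MonoidHom.id_apply]
      have h1 : dE A (Amalgam.inr A.subtype A.subtype γ) = SemidirectProduct.inr γ := rfl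
      rw [h1]
      exact SemidirectProduct.lift_inr _ _ _ _
  · apply SemidirectProduct.hom_ext
    · ext q : 1
      rw [MonoidHom.comp_apply, MonoidHom.comp_apply, MonoidHom.comp_apply, MonoidHom.id_apply]
      have h2 : dG A (SemidirectProduct.inl (FreeGroup.of q)) = dG1 A (FreeGroup.of q) :=
        SemidirectProduct.lift_inl _ _ _ _
      rw [h2, ← dX_coe, dG1_x]
      obtain ⟨⟨g⟩, hq⟩ := q
      change dE A (dY A ((g : Γ) : Γ ⧸ A)) = SemidirectProduct.inl (dX A ((g : Γ) : Γ ⧸ A))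
      rw [dY_mk, map_mul, map_inv]
      have h3 : dE A (Amalgam.inl A.subtype A.subtype g) = dF1 A g := rfl
      have h4 : dE A (Amalgam.inr A.subtype A.subtype g) = SemidirectProduct.inr g := rfl
      rw [h3, h4, dF1_apply, SemidirectProduct.mk_eq_inl_mul_inr, mul_inv_cancel_right,
        dSmul_orig]
    · ext γ : 1
      rw [MonoidHom.comp_apply, MonoidHom.comp_apply, MonoidHom.comp_apply, MonoidHom.id_apply]
      have h2 : dG A (SemidirectProduct.inr γ) = Amalgam.inr A.subtype A.subtype γ :=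
        SemidirectProduct.lift_inr _ _ _ _
      rw [h2]
      rfl

end Helper85.FI
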