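import Pool.Agent.Helper85.FI.Defs

/-!
# FI-16: amalgams of finite groups embed in one finite group on the factors

PROOF. Let `m₁ = |P₁|/|C|`, `m₂ = |P₂|/|C|` (`C` is finite). `X = P₁ × Fin m₂` with the left action of `P₁` on the first factor, and
`Y = P₂ × Fin m₁` with the left action of `P₂`. Restricted to `C` (by `j₁`, `j₂`) both are free `C`-sets with `m₁ m₂` orbits, so
there is a `C`-equivariant bijection `β : X ≃ Y` (`P₁ ≃ C × (C \ P₁)` as `C`-sets). Take `P = Equiv.Perm X`, `f₁` = the action of `P₁`,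
`f₂ p = β⁻¹ (p ·) β`; both actions are free, so `f₁, f₂` are injective, and they agree on `C`.
-/

namespace Helper85.FI

/-- A free action on the left by a subgroup: representatives and coordinates. -/
private theorem fa_section {C P : Type} [Group C] [Group P] (j : C →* P)
    (h : Function.Injective j) :
    ∃ (κ : P → C) (τ : P → P), (∀ p, j (κ p) * τ p = p) ∧ (∀ c p, κ (j c * p) = c * κ p) ∧
      (∀ c p, τ (j c * p) = τ p) ∧ (∀ p, κ (τ p) = 1) ∧ ∀ p, τ (τ p) = τ p := by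
  let r : Setoid P :=
    { r := fun x y => ∃ c, j c * x = y
      iseqv := ⟨fun x => ⟨1, by simp⟩, fun {x y} ⟨c, hc⟩ => ⟨c⁻¹, by rw [← hc]; simp⟩,
        fun {x y z} ⟨c, hc⟩ ⟨d, hd⟩ => ⟨d * c, by rw [← hd, ← hc, map_mul, mul_assoc]⟩⟩ }
  let τ : P → P := fun p => (Quotient.mk r p).out
  have hτ : ∀ p, ∃ c, j c * τ p = p := fun p =>
    Quotient.exact (Quotient.out_eq (Quotient.mk r p))
  choose κ hκ using hτ
  have h1 : ∀ c p, τ (j c * p) = τ p := by
    intro c p
    have hr : r.r p (j c * p) := ⟨c, rfl⟩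
    have h0 : Quotient.mk r (j c * p) = Quotient.mk r p := (Quotient.sound hr).symm
    change (Quotient.mk r (j c * p)).out = (Quotient.mk r p).out
    rw [h0]
  have h2 : ∀ c p, κ (j c * p) = c * κ p := by
    intro c p
    have e1 := hκ (j c * p)
    rw [h1] at e1
    have e2 : j (c * κ p) * τ p = j c * p := by rw [map_mul, mul_assoc, hκ]
    exact h (mul_right_cancel (e1.trans e2.symm))
  have h3 : ∀ p, τ (τ p) = τ p := by
    intro p
    have h0 := h1 (κ p) (τ p)
    rw [hκ] at h0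
    exact h0.symm
  refine ⟨κ, τ, hκ, h2, h1, fun p => ?_, h3⟩
  have h0 := h2 (κ p) (τ p)
  rw [hκ] at h0
  exact mul_eq_left.1 h0.symm

/-- left multiplication on the first factor -/
private def fa_fst (P₁ P₂ : Type) [Group P₁] : P₁ →* Equiv.Perm (P₁ × P₂) where
  toFun p := ⟨fun z => (p * z.1, z.2), fun z => (p⁻¹ * z.1, z.2), fun z => by simp,
    fun z => by simp⟩
  map_one' := by ext z <;> simp
  map_mul' p q := by ext z <;> simp [mul_assoc]

/-- left multiplication on the second factor -/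
private def fa_snd (P₁ P₂ : Type) [Group P₂] : P₂ →* Equiv.Perm (P₁ × P₂) where
  toFun p := ⟨fun z => (z.1, p * z.2), fun z => (z.1, p⁻¹ * z.2), fun z => by simp,
    fun z => by simp⟩
  map_one' := by ext z <;> simp
  map_mul' p q := by ext z <;> simp [mul_assoc]

theorem exists_common {C P₁ P₂ : Type} [Group C] [Group P₁] [Group P₂] [Finite P₁] [Finite P₂]
    (j₁ : C →* P₁) (j₂ : C →* P₂) (h1 : Function.Injective j₁) (h2 : Function.Injective j₂) :
    ∃ (P : Type) (_ : Group P) (_ : Finite P) (f₁ : P₁ →* P) (f₂ : P₂ →* P),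
      Function.Injective f₁ ∧ Function.Injective f₂ ∧ f₁.comp j₁ = f₂.comp j₂ := by
  obtain ⟨κ, τ, a1, a2, a3, a4, a5⟩ := fa_section j₁ h1
  obtain ⟨κ', τ', b1, b2, b3, b4, b5⟩ := fa_section j₂ h2
  let β : P₁ × P₂ → P₁ × P₂ := fun z => (j₁ (κ' z.2) * τ z.1, j₂ (κ z.1) * τ' z.2)
  have hβ : ∀ z, β (β z) = z := by
    rintro ⟨x, y⟩
    simp only [β, a1, a2, a3, a4, a5, b1, b2, b3, b4, b5, mul_one]
  let B : Equiv.Perm (P₁ × P₂) := ⟨β, β, hβ, hβ⟩
  refine ⟨Equiv.Perm (P₁ × P₂), inferInstance, inferInstance, fa_fst P₁ P₂,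
    ((MulAut.conj B).toMonoidHom).comp (fa_snd P₁ P₂), ?_, ?_, ?_⟩
  · intro p q hpq
    have h0 := congrArg (fun e : Equiv.Perm (P₁ × P₂) => (e (1, 1)).1) hpq
    simpa [fa_fst] using h0
  · intro p q hpq
    have h3 : fa_snd P₁ P₂ p = fa_snd P₁ P₂ q := (MulAut.conj B).injective hpq
    have h0 := congrArg (fun e : Equiv.Perm (P₁ × P₂) => (e (1, 1)).2) h3
    simpa [fa_snd] using h0
  · apply MonoidHom.ext
    intro c
    apply Equiv.ext
    rintro ⟨x, y⟩
    change ((j₁ c * x, y) : P₁ × P₂) = β ((β (x, y)).1, j₂ c * (β (x, y)).2)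
    simp only [β, a2, a3, a4, a5, b1, b2, b3, b4, b5, mul_one, map_mul, mul_assoc]
    rw [a1]

end Helper85.FI
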