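import Pool.Agent.Helper85.FI.Double
import Pool.Agent.Helper85.FI.FinAm
import Pool.Agent.Helper85.NS.Push

/-!
# FI-17: the quotient of an amalgam by a normal subgroup of the edge group is virtually free

PROOF. `B₁ = i₁(B)` and `B₂ = i₂(B)` are normal in `Γ₁`, `Γ₂` (because `inl`, `inr` are injective — see
`Helper85.NS.toPush_injective` and Mathlib's `Monoid.PushoutI.of_injective` — and the image of `B` is normal) and
`B` is normal in `A`. `P_k = Γ_k ⧸ B_k` is finite, `C = A ⧸ B`, `j_k : C → P_k` injective. Let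
`f_k : P_k → P` be given by `exists_common`, `C' = range (f₁ ∘ j₁) ≤ P`. The homomorphism
`Amalgam i₁ i₂ → Amalgam j₁ j₂ → Amalgam (f₁.comp j₁) (f₂.comp j₂) → Amalgam C'.subtype C'.subtype ≃* FreeGroup α ⋊[φ] P`:
the first arrow (`Amalgam.lift`) has kernel the image of `B` (the quotient of `Amalgam i₁ i₂` by this normal subgroup
receives a map from `Amalgam j₁ j₂`), the second is injective (`Helper85.NS.amalgam_map_injective`), the third is an
isomorphism (reparametrization of the edge group by `C ≃* C'`), the last is `exists_double`. Compose with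
`rightHom` to `P` for `G₁` = the kernel of the composition to `P`: a normal subgroup of finite index `G₁` of `G`, and
`G₁ → FreeGroup α` with kernel the image of `B`.
-/

namespace Helper85.FI

open Helper85.NS

private theorem h16_inl_inj {A Γ₁ Γ₂ : Type} [Group A] [Group Γ₁] [Group Γ₂] (i₁ : A →* Γ₁)
    (i₂ : A →* Γ₂) (hi₁ : Function.Injective i₁) (hi₂ : Function.Injective i₂) :
    Function.Injective (Amalgam.inl i₁ i₂) := by
  intro x y hxy
  have h := congrArg (toPush i₁ i₂) hxy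
  have hφ : ∀ b, Function.Injective (famHom i₁ i₂ b) := by
    intro b
    cases b
    · exact hi₂
    · exact hi₁
  exact Monoid.PushoutI.of_injective (φ := famHom i₁ i₂) hφ true h

private theorem h16_inr_inj {A Γ₁ Γ₂ : Type} [Group A] [Group Γ₁] [Group Γ₂] (i₁ : A →* Γ₁)
    (i₂ : A →* Γ₂) (hi₁ : Function.Injective i₁) (hi₂ : Function.Injective i₂) :
    Function.Injective (Amalgam.inr i₁ i₂) := by
  intro x y hxy
  have h := congrArg (toPush i₁ i₂) hxy
  have hφ : ∀ b, Function.Injective (famHom i₁ i₂ b) := by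
    intro b
    cases b
    · exact hi₂
    · exact hi₁
  exact Monoid.PushoutI.of_injective (φ := famHom i₁ i₂) hφ false h

private theorem h16_edge_r {A Γ₁ Γ₂ : Type} [Group A] [Group Γ₁] [Group Γ₂] (i₁ : A →* Γ₁)
    (i₂ : A →* Γ₂) (a : A) : edge i₁ i₂ a = Amalgam.inr i₁ i₂ (i₂ a) :=
  Amalgam.inl_eq_inr i₁ i₂ a

/-- the homomorphism to the double of a finite group -/
private theorem h16_exists_theta {A Γ₁ Γ₂ : Type} [Group A] [Group Γ₁] [Group Γ₂] (i₁ : A →* Γ₁)
    (i₂ : A →* Γ₂) (hi₁ : Function.Injective i₁) (hi₂ : Function.Injective i₂)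
    (h1 : i₁.range.FiniteIndex) (h2 : i₂.range.FiniteIndex) (B : Subgroup A)
    (hB : B.FiniteIndex) (hN : (B.map (edge i₁ i₂)).Normal) :
    ∃ (P : Type) (_ : Group P) (_ : Finite P) (K : Subgroup P)
      (Θ : Amalgam i₁ i₂ →* Amalgam K.subtype K.subtype), Θ.ker = B.map (edge i₁ i₂) := by
  have hl := h16_inl_inj i₁ i₂ hi₁ hi₂
  have hr := h16_inr_inj i₁ i₂ hi₁ hi₂
  obtain ⟨N, hNdef⟩ : ∃ N, N = B.map (edge i₁ i₂) := ⟨_, rfl⟩
  rw [← hNdef] at hN ⊢
  have hB1 : N.comap (Amalgam.inl i₁ i₂) = B.map i₁ := by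
    ext x
    rw [Subgroup.mem_comap, hNdef, Subgroup.mem_map, Subgroup.mem_map]
    constructor
    · rintro ⟨b, hb, hx⟩
      exact ⟨b, hb, hl hx⟩
    · rintro ⟨b, hb, rfl⟩
      exact ⟨b, hb, rfl⟩
  have hB2 : N.comap (Amalgam.inr i₁ i₂) = B.map i₂ := by
    ext x
    rw [Subgroup.mem_comap, hNdef, Subgroup.mem_map, Subgroup.mem_map]
    constructor
    · rintro ⟨b, hb, hx⟩
      rw [h16_edge_r] at hx
      exact ⟨b, hb, hr hx⟩
    · rintro ⟨b, hb, rfl⟩
      exact ⟨b, hb, h16_edge_r i₁ i₂ b⟩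
  have hn1 : (N.comap (Amalgam.inl i₁ i₂)).Normal := hN.comap _
  have hn2 : (N.comap (Amalgam.inr i₁ i₂)).Normal := hN.comap _
  have hn0 : (N.comap (edge i₁ i₂)).Normal := hN.comap _
  have hf1 : (N.comap (Amalgam.inl i₁ i₂)).FiniteIndex := by
    rw [hB1]
    constructor
    rw [Subgroup.index_map_of_injective B hi₁]
    exact mul_ne_zero hB.index_ne_zero h1.index_ne_zero
  have hf2 : (N.comap (Amalgam.inr i₁ i₂)).FiniteIndex := by
    rw [hB2]
    constructor
    rw [Subgroup.index_map_of_injective B hi₂]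
    exact mul_ne_zero hB.index_ne_zero h2.index_ne_zero
  have hc1 : N.comap (edge i₁ i₂) ≤ (N.comap (Amalgam.inl i₁ i₂)).comap i₁ := le_of_eq rfl
  have hc2 : N.comap (edge i₁ i₂) ≤ (N.comap (Amalgam.inr i₁ i₂)).comap i₂ := by
    intro a ha
    rw [Subgroup.mem_comap, Subgroup.mem_comap, ← h16_edge_r]
    exact ha
  let j₁ := QuotientGroup.map (N.comap (edge i₁ i₂)) (N.comap (Amalgam.inl i₁ i₂)) i₁ hc1
  let j₂ := QuotientGroup.map (N.comap (edge i₁ i₂)) (N.comap (Amalgam.inr i₁ i₂)) i₂ hc2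
  have hj1 : Function.Injective j₁ := by
    rw [injective_iff_map_eq_one]
    intro x
    induction x using QuotientGroup.induction_on with
    | H a =>
      intro ha
      have ha' : ((i₁ a : Γ₁) : Γ₁ ⧸ N.comap (Amalgam.inl i₁ i₂)) = 1 := ha
      rw [QuotientGroup.eq_one_iff] at ha' ⊢
      exact ha'
  have hj2 : Function.Injective j₂ := by
    rw [injective_iff_map_eq_one]
    intro x
    induction x using QuotientGroup.induction_on with
    | H a =>
      intro ha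
      have ha' : ((i₂ a : Γ₂) : Γ₂ ⧸ N.comap (Amalgam.inr i₁ i₂)) = 1 := ha
      rw [QuotientGroup.eq_one_iff] at ha' ⊢
      rw [Subgroup.mem_comap, ← h16_edge_r] at ha'
      exact ha'
  have : Finite (Γ₁ ⧸ N.comap (Amalgam.inl i₁ i₂)) := inferInstance
  have : Finite (Γ₂ ⧸ N.comap (Amalgam.inr i₁ i₂)) := inferInstance
  obtain ⟨P, hPg, hPf, f₁, f₂, hf1i, hf2i, hff⟩ := exists_common j₁ j₂ hj1 hj2
  have hff' : ∀ c, f₁ (j₁ c) = f₂ (j₂ c) := fun c => DFunLike.congr_fun hff c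
  let K : Subgroup P := (f₁.comp j₁).range
  have hK : ∀ c, f₁ (j₁ c) ∈ K := fun c => ⟨c, rfl⟩
  have hKcomp : ∀ c, Amalgam.inl K.subtype K.subtype (f₁ (j₁ c)) =
      Amalgam.inr K.subtype K.subtype (f₂ (j₂ c)) := by
    intro c
    rw [← hff']
    exact Amalgam.inl_eq_inr K.subtype K.subtype ⟨f₁ (j₁ c), hK c⟩
  let Φ : Amalgam j₁ j₂ →* Amalgam K.subtype K.subtype :=
    Amalgam.lift j₁ j₂ ((Amalgam.inl K.subtype K.subtype).comp f₁)
      ((Amalgam.inr K.subtype K.subtype).comp f₂) hKcomp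
  let S : Amalgam K.subtype K.subtype →* Amalgam (f₁.comp j₁) (f₂.comp j₂) :=
    Amalgam.lift K.subtype K.subtype (Amalgam.inl (f₁.comp j₁) (f₂.comp j₂))
      (Amalgam.inr (f₁.comp j₁) (f₂.comp j₂)) (by
      rintro ⟨k, c, rfl⟩
      have := Amalgam.inl_eq_inr (f₁.comp j₁) (f₂.comp j₂) c
      rw [Subgroup.coe_subtype]
      change Amalgam.inl (f₁.comp j₁) (f₂.comp j₂) ((f₁.comp j₁) c) =
        Amalgam.inr (f₁.comp j₁) (f₂.comp j₂) ((f₁.comp j₁) c)
      rw [this, ← hff])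
  have hΦ : Function.Injective Φ := by
    have hSΦ : Function.Injective (S.comp Φ) :=
      amalgam_map_injective j₁ j₂ hj1 hj2 f₁ f₂ hf1i hf2i (S.comp Φ) (fun _ => rfl)
        (fun _ => rfl)
    intro x y hxy
    exact hSΦ (congrArg S hxy)
  let τ : Amalgam i₁ i₂ →* Amalgam j₁ j₂ :=
    Amalgam.lift i₁ i₂ ((Amalgam.inl j₁ j₂).comp (QuotientGroup.mk' _))
      ((Amalgam.inr j₁ j₂).comp (QuotientGroup.mk' _))
      (fun a => Amalgam.inl_eq_inr j₁ j₂ (a : A ⧸ N.comap (edge i₁ i₂)))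
  let Ψ : Amalgam j₁ j₂ →* Amalgam i₁ i₂ ⧸ N :=
    Amalgam.lift j₁ j₂ (QuotientGroup.map (N.comap (Amalgam.inl i₁ i₂)) N
      (Amalgam.inl i₁ i₂) le_rfl)
      (QuotientGroup.map (N.comap (Amalgam.inr i₁ i₂)) N (Amalgam.inr i₁ i₂) le_rfl) (by
      intro c
      induction c using QuotientGroup.induction_on with
      | H a =>
        exact congrArg (QuotientGroup.mk' N) (Amalgam.inl_eq_inr i₁ i₂ a))
  have hΨτ : Ψ.comp τ = QuotientGroup.mk' N := by
    apply Amalgam.hom_ext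
    · intro x
      rfl
    · intro x
      rfl
  refine ⟨P, hPg, hPf, K, Φ.comp τ, ?_⟩
  apply le_antisymm
  · intro g hg
    have hg1 : Φ (τ g) = 1 := hg
    have hg2 : τ g = 1 := hΦ (hg1.trans (map_one Φ).symm)
    have hg3 : QuotientGroup.mk' N g = 1 := by
      rw [← hΨτ, MonoidHom.comp_apply, hg2, map_one]
    exact (QuotientGroup.eq_one_iff g).1 hg3
  · intro g hg
    rw [hNdef, Subgroup.mem_map] at hg
    obtain ⟨b, hb, rfl⟩ := hg
    have hbN : b ∈ N.comap (edge i₁ i₂) := by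
      rw [Subgroup.mem_comap, hNdef]
      exact Subgroup.mem_map_of_mem _ hb
    have hb1 : ((i₁ b : Γ₁) : Γ₁ ⧸ N.comap (Amalgam.inl i₁ i₂)) = 1 := by
      rw [QuotientGroup.eq_one_iff]
      exact hbN
    change Amalgam.inl K.subtype K.subtype
      (f₁ ((i₁ b : Γ₁) : Γ₁ ⧸ N.comap (Amalgam.inl i₁ i₂))) = 1
    rw [hb1, map_one, map_one]

theorem exists_virtually_free {A Γ₁ Γ₂ : Type} [Group A] [Group Γ₁] [Group Γ₂] (i₁ : A →* Γ₁)
    (i₂ : A →* Γ₂) (hi₁ : Function.Injective i₁) (hi₂ : Function.Injective i₂)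
    (h1 : i₁.range.FiniteIndex) (h2 : i₂.range.FiniteIndex) (B : Subgroup A)
    (hB : B.FiniteIndex) (hN : (B.map (edge i₁ i₂)).Normal) :
    ∃ (G₁ : Subgroup (Amalgam i₁ i₂)) (α : Type) (ρ : G₁ →* FreeGroup α), G₁.FiniteIndex ∧
      B.map (edge i₁ i₂) ≤ G₁ ∧
      ∀ g : G₁, ρ g = 1 ↔ (g : Amalgam i₁ i₂) ∈ B.map (edge i₁ i₂) := by
  obtain ⟨P, hPg, hPf, K, Θ, hΘ⟩ := h16_exists_theta i₁ i₂ hi₁ hi₂ h1 h2 B hB hN
  obtain ⟨φ, hφ, ⟨e⟩⟩ := exists_double K
  let R : Amalgam i₁ i₂ →* P :=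
    (SemidirectProduct.rightHom.comp e.toMonoidHom).comp Θ
  have hR : ∀ g : R.ker, (e (Θ (g : Amalgam i₁ i₂))).right = 1 := fun g => g.2
  let ρ : R.ker →* FreeGroup {q : P ⧸ K // q ≠ ((1 : P) : P ⧸ K)} :=
    { toFun := fun g => (e (Θ (g : Amalgam i₁ i₂))).left
      map_one' := by
        rw [Subgroup.coe_one, map_one, map_one, SemidirectProduct.one_left]
      map_mul' := by
        intro x y
        rw [Subgroup.coe_mul, map_mul, map_mul, SemidirectProduct.mul_left, hR x, map_one,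
          MulAut.one_apply] }
  refine ⟨R.ker, _, ρ, ?_, ?_, ?_⟩
  · haveI : Finite P := hPf
    exact Subgroup.finiteIndex_ker R
  · intro g hg
    rw [← hΘ] at hg
    have hg' : Θ g = 1 := hg
    change R g = 1
    change SemidirectProduct.rightHom (e (Θ g)) = 1
    rw [hg', map_one, map_one]
  · intro g
    rw [← hΘ, MonoidHom.mem_ker]
    constructor
    · intro hg
      have hg' : (e (Θ (g : Amalgam i₁ i₂))).left = 1 := hg
      have h3 : e (Θ (g : Amalgam i₁ i₂)) = 1 :=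
        SemidirectProduct.ext hg' (hR g)
      exact e.injective (h3.trans (map_one e).symm)
    · intro hg
      change (e (Θ (g : Amalgam i₁ i₂))).left = 1
      rw [hg, map_one, SemidirectProduct.one_left]

end Helper85.FI
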