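import Pool.Agent.Helper85.FI.ProdFree
import Pool.Agent.Helper85.FI.Quot

/-!
# FI-18: amalgams with a normal subgroup of finite index of the edge group

PROOF. `N` = the image of `B` in `G = Amalgam i₁ i₂` (isomorphic to `B`, as `edge` is injective), normal. `C` = the centralizer of `N` in `G`.
`N ⊓ C` = center of `N` = 1. `N ⊔ C` has finite index: `G → MulAut N` (conjugation) maps `N` onto the inner automorphisms,
which have finite index in `MulAut N`, and the preimage of the inner automorphisms is `N C`. Let `G₁, ρ` be given by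
`exists_virtually_free`, `G₂ = G₁ ⊓ (N ⊔ C)` of finite index. `N ≤ G₁`. `C₁ = C ⊓ G₁`; `ρ` is injective on `C₁`
(kernel `C₁ ⊓ N = 1`), so `C₁` is isomorphic to a subgroup of a free group, hence free: `C₁ ≃* FreeGroup X`. Every `g ∈ G₂` is
`n c` with `n ∈ N`, `c ∈ C`, `c = n⁻¹ g ∈ G₁`. So the multiplication `N × C₁ → G₂` is an isomorphism. `N ≃* B` is LERF
(`lerf_of_injective` along `B → A → Γ₁`). Use `fpsep_prod_free`, `fpsep_of_injective`, `fpsep_of_finiteIndex`.
-/

namespace Helper85.FI

open Helper85.NS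

private theorem edge_inj {A Γ₁ Γ₂ : Type} [Group A] [Group Γ₁] [Group Γ₂] (i₁ : A →* Γ₁)
    (i₂ : A →* Γ₂) (hi₁ : Function.Injective i₁) (hi₂ : Function.Injective i₂) :
    Function.Injective (edge i₁ i₂) := by
  have h1 : Function.Injective (Monoid.PushoutI.of (φ := famHom i₁ i₂) true) := by
    apply Monoid.PushoutI.of_injective
    intro b
    cases b
    · exact hi₂
    · exact hi₁
  have h3 : Function.Injective (Amalgam.inl i₁ i₂) := by
    intro x y hxy
    exact h1 (congrArg (toPush i₁ i₂) hxy)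
  exact h3.comp hi₁

/-- A group with a subgroup of finite index which is the product of a normal LERF subgroup `N` with
trivial center and finite outer automorphism group, and a subgroup of a free group. -/
private theorem key {G : Type} [Group G] (N : Subgroup G) (hN : N.Normal) (hL : LERF N)
    (hZ : Subgroup.center N = ⊥) (hO : (MulAut.conj : N →* MulAut N).range.FiniteIndex)
    (G₁ : Subgroup G) (α : Type) (ρ : G₁ →* FreeGroup α) (hG₁ : G₁.FiniteIndex)
    (hle : N ≤ G₁) (hρ : ∀ g : G₁, ρ g = 1 ↔ (g : G) ∈ N) : FPSep G := by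
  -- the centralizer of `N`
  let C : Subgroup G := Subgroup.centralizer (N : Set G)
  have hNC : N ⊓ C = ⊥ := by
    rw [eq_bot_iff]
    rintro x ⟨hx1, hx2⟩
    have h1 : (⟨x, hx1⟩ : N) ∈ Subgroup.center N := by
      rw [Subgroup.mem_center_iff]
      intro g
      apply Subtype.ext
      exact Subgroup.mem_centralizer_iff.1 hx2 g.1 g.2
    rw [hZ, Subgroup.mem_bot] at h1
    rw [Subgroup.mem_bot]
    exact congrArg Subtype.val h1
  -- conjugation
  let κ : G →* MulAut N := MulAut.conjNormal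
  have hκ : ∀ (g : G) (n : N), ((κ g n : N) : G) = g * n * g⁻¹ := fun g n => rfl
  let K : Subgroup G := (MulAut.conj : N →* MulAut N).range.comap κ
  have hK : K.FiniteIndex := by
    constructor
    rw [Subgroup.index_comap]
    exact (inferInstance : (((MulAut.conj : N →* MulAut N).range).subgroupOf
      κ.range).FiniteIndex).index_ne_zero
  have hKNC : ∀ g ∈ K, ∃ n ∈ N, ∃ c ∈ C, g = n * c := by
    rintro g ⟨n, hn⟩
    refine ⟨n, n.2, (n : G)⁻¹ * g, ?_, by group⟩
    rw [Subgroup.mem_centralizer_iff]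
    intro m hm
    have h1 : (MulAut.conj n : MulAut N) ⟨m, hm⟩ = κ g ⟨m, hm⟩ := by rw [hn]
    have h2 : (n : G) * m * (n : G)⁻¹ = g * m * g⁻¹ := by
      have := congrArg Subtype.val h1
      rw [hκ] at this
      simpa [MulAut.conj_apply] using this
    calc m * ((n : G)⁻¹ * g) = (n : G)⁻¹ * ((n : G) * m * (n : G)⁻¹) * g := by group
      _ = (n : G)⁻¹ * g * m := by rw [h2]; group
  let C₁ : Subgroup G := C ⊓ G₁
  let ρC : C₁ →* FreeGroup α := ρ.comp (Subgroup.inclusion inf_le_right)
  have hρC : Function.Injective ρC := by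
    rw [injective_iff_map_eq_one]
    intro x hx
    have h1 : (x : G) ∈ N := (hρ _).1 hx
    have h2 : (x : G) ∈ N ⊓ C := ⟨h1, x.2.1⟩
    rw [hNC, Subgroup.mem_bot] at h2
    exact Subtype.ext h2
  -- `C₁` is free
  let e₁ : C₁ ≃* ρC.range := MonoidHom.ofInjective hρC
  let e₂ : ρC.range ≃* FreeGroup (IsFreeGroup.Generators ρC.range) :=
    IsFreeGroup.toFreeGroup ρC.range
  -- the product
  let μ : N × C₁ →* G := MonoidHom.noncommCoprod N.subtype C₁.subtype (by
    intro n c
    exact Subgroup.mem_centralizer_iff.1 c.2.1 n.1 n.2)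
  have hμ : Function.Injective μ := by
    rw [injective_iff_map_eq_one]
    rintro ⟨n, c⟩ h
    have h1 : (n : G) * c = 1 := h
    have h2 : (n : G) ∈ N ⊓ C := ⟨n.2, by
      rw [eq_inv_of_mul_eq_one_left h1]
      exact C.inv_mem c.2.1⟩
    rw [hNC, Subgroup.mem_bot] at h2
    rw [h2, one_mul] at h1
    exact Prod.ext (Subtype.ext h2) (Subtype.ext h1)
  have hμr : ∀ g ∈ K ⊓ G₁, g ∈ μ.range := by
    rintro g ⟨h1, h2⟩
    obtain ⟨n, hn, c, hc, rfl⟩ := hKNC g h1
    refine ⟨(⟨n, hn⟩, ⟨c, hc, ?_⟩), rfl⟩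
    have := G₁.mul_mem (G₁.inv_mem (hle hn)) h2
    simpa using this
  have hfp : FPSep (N × FreeGroup (IsFreeGroup.Generators ρC.range)) := fpsep_prod_free hL _
  let e₃ : N × C₁ ≃* N × FreeGroup (IsFreeGroup.Generators ρC.range) :=
    MulEquiv.prodCongr (MulEquiv.refl N) (e₁.trans e₂)
  let e₄ : N × C₁ ≃* μ.range := MonoidHom.ofInjective hμ
  let ψ : (K ⊓ G₁ : Subgroup G) →* N × FreeGroup (IsFreeGroup.Generators ρC.range) :=
    (e₃.toMonoidHom.comp e₄.symm.toMonoidHom).comp (Subgroup.inclusion hμr)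
  have hψ : Function.Injective ψ :=
    (e₃.injective.comp e₄.symm.injective).comp (Subgroup.inclusion_injective hμr)
  exact fpsep_of_finiteIndex (K ⊓ G₁) inferInstance (fpsep_of_injective ψ hψ hfp)

theorem fpsep_of_normal {A Γ₁ Γ₂ : Type} [Group A] [Group Γ₁] [Group Γ₂] (i₁ : A →* Γ₁)
    (i₂ : A →* Γ₂) (hi₁ : Function.Injective i₁) (hi₂ : Function.Injective i₂)
    (h1 : i₁.range.FiniteIndex) (h2 : i₂.range.FiniteIndex) (hL : LERF Γ₁) (B : Subgroup A)
    (hB : B.FiniteIndex) (hN : (B.map (edge i₁ i₂)).Normal) (hZ : Subgroup.center B = ⊥)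
    (hO : (MulAut.conj : B →* MulAut B).range.FiniteIndex) : FPSep (Amalgam i₁ i₂) := by
  obtain ⟨G₁, α, ρ, hG₁, hle, hρ⟩ := exists_virtually_free i₁ i₂ hi₁ hi₂ h1 h2 B hB hN
  have he := edge_inj i₁ i₂ hi₁ hi₂
  let e : B ≃* B.map (edge i₁ i₂) := B.equivMapOfInjective (edge i₁ i₂) he
  have hLN : LERF (B.map (edge i₁ i₂)) := by
    refine lerf_of_injective ((i₁.comp B.subtype).comp e.symm.toMonoidHom) ?_ hL
    exact (hi₁.comp B.subtype_injective).comp e.symm.injective
  have hZN : Subgroup.center (B.map (edge i₁ i₂)) = ⊥ := by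
    rw [eq_bot_iff]
    intro x hx
    have h3 : e.symm x ∈ Subgroup.center B := by
      rw [Subgroup.mem_center_iff] at hx ⊢
      intro g
      have := congrArg e.symm (hx (e g))
      simpa using this
    rw [hZ, Subgroup.mem_bot] at h3
    rw [Subgroup.mem_bot]
    have := congrArg e h3
    simpa using this
  have hON : (MulAut.conj : B.map (edge i₁ i₂) →* MulAut (B.map (edge i₁ i₂))).range.FiniteIndex := by
    have h4 : (MulAut.conj : B.map (edge i₁ i₂) →* MulAut (B.map (edge i₁ i₂))).range =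
        ((MulAut.conj : B →* MulAut B).range).map (MulAut.congr e).toMonoidHom := by
      ext f
      constructor
      · rintro ⟨x, rfl⟩
        refine ⟨MulAut.conj (e.symm x), ⟨e.symm x, rfl⟩, ?_⟩
        ext y
        simp [MulAut.congr]
      · rintro ⟨_, ⟨x, rfl⟩, rfl⟩
        refine ⟨e x, ?_⟩
        ext y
        simp [MulAut.congr]
    rw [h4]
    constructor
    rw [show ((MulAut.conj : B →* MulAut B).range.map (MulAut.congr e).toMonoidHom).index =
      (MulAut.conj : B →* MulAut B).range.index from Subgroup.index_map_equiv _ (MulAut.congr e)]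
    exact hO.index_ne_zero
  exact key (B.map (edge i₁ i₂)) hN hLN hZN hON G₁ α ρ hG₁ hle hρ

end Helper85.FI
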