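import Pool.Agent.Helper85.FI.SepBasic
import Pool.Agent.Helper85.FI.Double
import Pool.Agent.Helper85.FI.BS
import Pool.Agent.Helper85.NS.Pow

/-!
# FI-14: doubles along subgroups of finite index at least three are not LERF

PROOF. `not_lerf_of_embedding`: map the subgroup of `exists_nonseparable_prod` by `f`; if the image were separable, so would be
the subgroup (`separable_of_map`). `exists_free_le`: let `n > 0` with `g ^ n ∈ B.normalCore` for all `g` (index or factorial of the
index of the normal core); the homomorphism `F₂ → F₂`, `a ↦ a^n`, `b ↦ b^n` is injective (compare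
`Helper85.NS.pw_injective` in Pool/Agent/Helper85/NS/Pow.lean, or a direct argument); compose with `f`.
`double_not_lerf`: by `exists_double` the amalgam is `FreeGroup α ⋊[φ] Γ`, `α` has at least two elements (index at least
three), `B = φ.ker` has finite index; `F₂ → FreeGroup α` injective (two different generators, `FreeGroup.map_injective`) and
`F₂ → B` injective (`exists_free_le`) combine to an injective homomorphism `F₂ × F₂ → FreeGroup α ⋊ Γ`,
`(u, v) ↦ ⟨u, v⟩`, as `φ v = 1`.
-/

namespace Helper85.FI

open Helper85.NS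

theorem not_lerf_of_embedding {G : Type} [Group G]
    (f : FreeGroup (Fin 2) × FreeGroup (Fin 2) →* G) (hf : Function.Injective f) :
    ∃ L : Subgroup G, L.FG ∧ ¬ Separable L := by
  obtain ⟨L, hL, hns⟩ := exists_nonseparable_prod
  refine ⟨L.map f, ?_, fun h => hns (separable_of_map f hf L h)⟩
  classical
  obtain ⟨S, hS⟩ := hL
  refine ⟨S.image f, ?_⟩
  rw [Finset.coe_image, ← MonoidHom.map_closure, hS]

theorem exists_free_le {G : Type} [Group G] (B : Subgroup G) (hB : B.FiniteIndex)
    (f : FreeGroup (Fin 2) →* G) (hf : Function.Injective f) :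
    ∃ g : FreeGroup (Fin 2) →* G, Function.Injective g ∧ ∀ x, g x ∈ B := by
  have hN : B.normalCore.FiniteIndex := inferInstance
  have hn : 0 < B.normalCore.index := Nat.pos_of_ne_zero hN.index_ne_zero
  have hP : Function.Injective (NS.pw (0 : Fin 2) 1 B.normalCore.index B.normalCore.index) :=
    pw_injective (0 : Fin 2) 1 (by decide) _ _ hn hn
  refine ⟨(f.comp (NS.pw (0 : Fin 2) 1 B.normalCore.index B.normalCore.index)).comp
    (FreeGroup.freeGroupCongr finTwoEquiv).toMonoidHom, ?_, ?_⟩
  · intro x y hxy
    exact (FreeGroup.freeGroupCongr finTwoEquiv).injective (hP (hf hxy))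
  · intro x
    have h1 : (NS.pw (0 : Fin 2) 1 B.normalCore.index B.normalCore.index).range ≤ B.comap f := by
      unfold NS.pw
      apply FreeGroup.range_lift_le
      rintro _ ⟨c, rfl⟩
      apply B.normalCore_le
      cases c
      · change f (FreeGroup.of 1 ^ B.normalCore.index) ∈ B.normalCore
        rw [map_pow]
        exact B.normalCore.pow_index_mem _
      · change f (FreeGroup.of 0 ^ B.normalCore.index) ∈ B.normalCore
        rw [map_pow]
        exact B.normalCore.pow_index_mem _
    exact h1 ⟨FreeGroup.freeGroupCongr finTwoEquiv x, rfl⟩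

theorem double_not_lerf {Γ : Type} [Group Γ] (A : Subgroup Γ) (hA : A.FiniteIndex)
    (h3 : 3 ≤ A.index) (f : FreeGroup (Fin 2) →* Γ) (hf : Function.Injective f) :
    ∃ L : Subgroup (Amalgam A.subtype A.subtype), L.FG ∧ ¬ Separable L := by
  classical
  obtain ⟨φ, hφ, ⟨e⟩⟩ := exists_double A
  have hB : φ.ker.FiniteIndex := Subgroup.finiteIndex_of_le hφ
  obtain ⟨g, hg, hgB⟩ := exists_free_le φ.ker hB f hf
  -- two different generators
  have hfin : Finite (Γ ⧸ A) := inferInstance
  have hnt : Nontrivial {q : Γ ⧸ A // q ≠ ((1 : Γ) : Γ ⧸ A)} := by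
    by_contra hc
    rw [not_nontrivial_iff_subsingleton] at hc
    have h4 : Nat.card (Γ ⧸ A) ≤ 2 := by
      let F : Γ ⧸ A → Bool := fun q => decide (q = ((1 : Γ) : Γ ⧸ A))
      have hF : Function.Injective F := by
        intro x y hxy
        simp only [F, decide_eq_decide] at hxy
        by_cases hx : x = ((1 : Γ) : Γ ⧸ A)
        · rw [hx, hxy.1 hx]
        · have hy : y ≠ ((1 : Γ) : Γ ⧸ A) := fun h => hx (hxy.2 h)
          exact congrArg Subtype.val (@Subsingleton.elim _ hc ⟨x, hx⟩ ⟨y, hy⟩)
      have h6 := Nat.card_le_card_of_injective F hF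
      have h7 : Nat.card Bool = 2 := by
        rw [Nat.card_eq_fintype_card, Fintype.card_bool]
      rwa [h7] at h6
    have h5 : A.index ≤ 2 := h4
    omega
  obtain ⟨q₁, q₂, hq⟩ := exists_pair_ne {q : Γ ⧸ A // q ≠ ((1 : Γ) : Γ ⧸ A)}
  let s : Fin 2 → {q : Γ ⧸ A // q ≠ ((1 : Γ) : Γ ⧸ A)} := fun i => if i = 0 then q₁ else q₂
  have hs : Function.Injective s := by
    intro i j hij
    fin_cases i <;> fin_cases j
    · rfl
    · exact absurd hij hq
    · exact absurd hij.symm hq
    · rfl
  have hu : Function.Injective (FreeGroup.map s) := FreeGroup.map_injective hs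
  have hg1 : ∀ y, φ (g y) = 1 := fun y => hgB y
  let F : FreeGroup (Fin 2) × FreeGroup (Fin 2) →*
      FreeGroup {q : Γ ⧸ A // q ≠ ((1 : Γ) : Γ ⧸ A)} ⋊[φ] Γ :=
    { toFun := fun p => ⟨FreeGroup.map s p.1, g p.2⟩
      map_one' := by
        apply SemidirectProduct.ext
        · exact map_one _
        · exact map_one _
      map_mul' := by
        intro a b
        apply SemidirectProduct.ext
        · rw [SemidirectProduct.mul_left]
          change _ = _ * (φ (g a.2)) (FreeGroup.map s b.1)
          rw [hg1, MulAut.one_apply]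
          exact map_mul _ _ _
        · rw [SemidirectProduct.mul_right]
          exact map_mul _ _ _ }
  have hF : Function.Injective F := by
    intro a b hab
    have h1 : FreeGroup.map s a.1 = FreeGroup.map s b.1 := congrArg SemidirectProduct.left hab
    have h2 : g a.2 = g b.2 := congrArg SemidirectProduct.right hab
    exact Prod.ext (hu h1) (hg h2)
  exact not_lerf_of_embedding (e.symm.toMonoidHom.comp F) (e.symm.injective.comp hF)

end Helper85.FI
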