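import Pool.Agent.Helper85.FI.Semi
import Pool.Agent.Helper85.FI.NonLerf
import Pool.Agent.Helper85.FI.Comm
import Pool.Agent.Helper85.FI.General

/-!
# Amalgams along subgroups of finite index: assembly
-/

namespace Helper85.FI

open Helper85.NS Function

/-- The edge group of an amalgam is finitely presented if it is of finite index in a finitely
presented vertex group. -/
theorem edge_fp {A Γ₁ Γ₂ : Type} [Group A] [Group Γ₁] [Group Γ₂] (i₁ : A →* Γ₁)
    (i₂ : A →* Γ₂) (hi₁ : Injective i₁) (h1 : i₁.range.FiniteIndex)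
    (hfp : Group.IsFinitelyPresented Γ₁) (he : Injective (edge i₁ i₂)) :
    Group.IsFinitelyPresented (edge i₁ i₂).range := by
  have h2 := fp_of_finiteIndex hfp i₁.range h1
  have e1 : i₁.range ≃* A := (MonoidHom.ofInjective hi₁).symm
  have e2 : A ≃* (edge i₁ i₂).range := MonoidHom.ofInjective he
  exact Group.IsFinitelyPresented.equiv (e1.trans e2)

theorem edge_injective {A Γ₁ Γ₂ : Type} [Group A] [Group Γ₁] [Group Γ₂] (i₁ : A →* Γ₁)
    (i₂ : A →* Γ₂) (hi₁ : Injective i₁) (hi₂ : Injective i₂) : Injective (edge i₁ i₂) := by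
  have h1 : Injective (Monoid.PushoutI.of (φ := famHom i₁ i₂) true) := by
    apply Monoid.PushoutI.of_injective
    intro b
    cases b
    · exact hi₂
    · exact hi₁
  have h3 : Injective (Amalgam.inl i₁ i₂) := by
    intro x y hxy
    exact h1 (congrArg (toPush i₁ i₂) hxy)
  exact h3.comp hi₁

theorem final :
    (∀ (Γ : Type) [Group Γ], LERF Γ → ∀ A : Subgroup Γ, A.FiniteIndex →
      FPSep (Amalgam A.subtype A.subtype) ∧
      (3 ≤ A.index → (∃ f : FreeGroup (Fin 2) →* Γ, Injective f) →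
        ∃ L : Subgroup (Amalgam A.subtype A.subtype), L.FG ∧ ¬ Separable L)) ∧
    (∀ (A Γ₁ Γ₂ : Type) [Group A] [Group Γ₁] [Group Γ₂] (i₁ : A →* Γ₁) (i₂ : A →* Γ₂),
      Injective i₁ → Injective i₂ → i₁.range.FiniteIndex → i₂.range.FiniteIndex →
      Group.IsFinitelyPresented Γ₁ → Group.FG Γ₂ → LERF Γ₁ →
      (∀ B : Subgroup A, B.FiniteIndex →
        Subgroup.center B = ⊥ ∧ (MulAut.conj : B →* MulAut B).range.FiniteIndex) →
      (FPSep (Amalgam i₁ i₂) ↔ Separable (edge i₁ i₂).range) ∧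
      (Separable (edge i₁ i₂).range ↔
        ∃ B : Subgroup A, B.FiniteIndex ∧ (B.map (edge i₁ i₂)).Normal)) := by
  refine ⟨?_, ?_⟩
  · intro Γ _ hΓ A hA
    refine ⟨fpsep_double hΓ A hA, ?_⟩
    rintro h3 ⟨f, hf⟩
    exact double_not_lerf A hA h3 f hf
  · intro A Γ₁ Γ₂ _ _ _ i₁ i₂ hi₁ hi₂ h1 h2 hfp hfg hL hB
    have he := edge_injective i₁ i₂ hi₁ hi₂
    have hA : Group.IsFinitelyPresented (edge i₁ i₂).range :=
      edge_fp i₁ i₂ hi₁ h1 hfp he
    have hfg1 : Group.FG Γ₁ := by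
      obtain ⟨n, φ, hφ, -⟩ := hfp.out
      exact Group.fg_of_surjective hφ
    have k1 : FPSep (Amalgam i₁ i₂) → Separable (edge i₁ i₂).range := fun h => h _ hA
    have k2 : Separable (edge i₁ i₂).range →
        ∃ B : Subgroup A, B.FiniteIndex ∧ (B.map (edge i₁ i₂)).Normal :=
      fun h => exists_normal_of_edge i₁ i₂ h1 h2 hfg1 hfg h
    have k3 : (∃ B : Subgroup A, B.FiniteIndex ∧ (B.map (edge i₁ i₂)).Normal) →
        FPSep (Amalgam i₁ i₂) := by
      rintro ⟨B, hB1, hB2⟩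
      exact fpsep_of_normal i₁ i₂ hi₁ hi₂ h1 h2 hL B hB1 hB2 (hB B hB1).1 (hB B hB1).2
    exact ⟨⟨k1, fun h => k3 (k2 h)⟩, ⟨k2, fun h => k1 (k3 h)⟩⟩

end Helper85.FI
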