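import Mathlib

/-!
# FI-05: Fox calculus

PROOF. `∂` is the crossed homomorphism with `∂ (of x) = single (x, 1) 1`: construct it by `FreeGroup.lift` into the
semidirect product `Multiplicative (α × F →₀ ℤ) ⋊ F` (or into the group of affine maps / as a cocycle), where `g ∈ F` acts by
`mapDomain fun p => (p.1, g * p.2)`. Let `T : (α × F →₀ ℤ) → (F →₀ ℤ)` be the additive map
`single (x, u) c ↦ single (u * of x) c - single u c`. Fundamental formula: `T (∂ w) = single w 1 - single 1 1` (induction on
`w`; both sides are crossed homomorphisms which agree on the generators). Suppose `∂ w = b - w • b`. Then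
`single w 1 - single 1 1 = T b - w • T b`, where `w •` on `F →₀ ℤ` is `mapDomain (w * ·)`. Hence `u := T b + single 1 1`
satisfies `u = w • u`, so the support of `u` is invariant under left multiplication by `w`, which has infinite
order (`w ≠ 1`, free groups are torsion free); as the support is finite, `u = 0`. But the sum of the coefficients of `T b`
is `0` and that of `single 1 1` is `1`. Contradiction.
-/

namespace Helper85.FI

section fox

variable (α : Type)

/-- the module `ℤ[F]^α` -/
private abbrev FM : Type := α × FreeGroup α →₀ ℤ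

/-- the action of `F` on the module, as automorphisms -/
private noncomputable def foxAct : FreeGroup α →* MulAut (Multiplicative (FM α)) where
  toFun g := AddEquiv.toMultiplicative
    (Finsupp.domCongr (Equiv.prodCongr (Equiv.refl α) (Equiv.mulLeft g)))
  map_one' := by
    apply MulEquiv.ext
    intro m
    apply Multiplicative.toAdd.injective
    apply Finsupp.ext
    rintro ⟨x, u⟩
    change (Multiplicative.toAdd m) (x, (1 : FreeGroup α)⁻¹ * u) = (Multiplicative.toAdd m) (x, u)
    rw [inv_one, one_mul]
  map_mul' g h := by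
    apply MulEquiv.ext
    intro m
    apply Multiplicative.toAdd.injective
    apply Finsupp.ext
    rintro ⟨x, u⟩
    change (Multiplicative.toAdd m) (x, (g * h)⁻¹ * u) =
      (Multiplicative.toAdd m) (x, h⁻¹ * (g⁻¹ * u))
    rw [mul_inv_rev, mul_assoc]

/-- the homomorphism to the semidirect product -/
private noncomputable def foxHom : FreeGroup α →* Multiplicative (FM α) ⋊[foxAct α] FreeGroup α :=
  FreeGroup.lift fun x => ⟨Multiplicative.ofAdd (Finsupp.single (x, 1) 1), FreeGroup.of x⟩

private theorem foxHom_right (w : FreeGroup α) : (foxHom α w).right = w := by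
  have h : (SemidirectProduct.rightHom.comp (foxHom α)) = MonoidHom.id (FreeGroup α) := by
    apply FreeGroup.ext_hom
    intro x
    simp [foxHom]
  exact DFunLike.congr_fun h w

/-- Fox derivative -/
private noncomputable def foxD (w : FreeGroup α) : FM α :=
  Multiplicative.toAdd (foxHom α w).left

private theorem foxAct_toAdd (g : FreeGroup α) (m : FM α) :
    Multiplicative.toAdd (foxAct α g (Multiplicative.ofAdd m)) =
      m.mapDomain fun p => (p.1, g * p.2) := by
  change Finsupp.equivMapDomain (Equiv.prodCongr (Equiv.refl α) (Equiv.mulLeft g)) m = _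
  rw [Finsupp.equivMapDomain_eq_mapDomain]
  rfl

private theorem foxD_mul (g h : FreeGroup α) :
    foxD α (g * h) = foxD α g + (foxD α h).mapDomain fun p => (p.1, g * p.2) := by
  unfold foxD
  rw [map_mul, SemidirectProduct.mul_left, toAdd_mul, foxHom_right, ← foxAct_toAdd]
  rfl

private theorem foxD_of (x : α) : foxD α (FreeGroup.of x) = Finsupp.single (x, 1) 1 := by
  unfold foxD foxHom
  rw [FreeGroup.lift_apply_of]
  rfl

/-- the boundary map -/
private noncomputable def foxT : FM α →+ (FreeGroup α →₀ ℤ) :=
  Finsupp.liftAddHom fun p => Finsupp.singleAddHom (p.2 * FreeGroup.of p.1) -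
    Finsupp.singleAddHom p.2

private theorem foxT_single (p : α × FreeGroup α) (c : ℤ) : foxT α (Finsupp.single p c) =
    Finsupp.single (p.2 * FreeGroup.of p.1) c - Finsupp.single p.2 c := by
  unfold foxT
  rw [Finsupp.liftAddHom_apply_single]
  rfl

private theorem foxT_act (g : FreeGroup α) (m : FM α) :
    foxT α (m.mapDomain fun p => (p.1, g * p.2)) = (foxT α m).mapDomain (g * ·) := by
  have h : (foxT α).comp (Finsupp.mapDomain.addMonoidHom fun p : α × FreeGroup α =>
      (p.1, g * p.2)) = (Finsupp.mapDomain.addMonoidHom (g * ·)).comp (foxT α) := by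
    ext1 p
    ext1
    simp only [AddMonoidHom.comp_apply, Finsupp.singleAddHom_apply,
      Finsupp.mapDomain.addMonoidHom_apply, Finsupp.mapDomain_single, foxT_single]
    rw [← Finsupp.mapDomain.addMonoidHom_apply (g * ·), map_sub,
      Finsupp.mapDomain.addMonoidHom_apply, Finsupp.mapDomain.addMonoidHom_apply,
      Finsupp.mapDomain_single, Finsupp.mapDomain_single, mul_assoc]
  exact DFunLike.congr_fun h m

private theorem mapDomain_sub' {X Y : Type} (f : X → Y) (a b : X →₀ ℤ) :
    (a - b).mapDomain f = a.mapDomain f - b.mapDomain f :=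
  map_sub (Finsupp.mapDomain.addMonoidHom f) a b

private theorem foxD_one : foxD α 1 = 0 := by
  have h := foxD_mul α 1 1
  rw [mul_one] at h
  have h2 : (fun p : α × FreeGroup α => (p.1, (1 : FreeGroup α) * p.2)) = id := by
    funext p
    rw [one_mul]
    rfl
  rw [h2, Finsupp.mapDomain_id] at h
  exact left_eq_add.1 h

/-- the fundamental formula -/
private theorem foxT_foxD (w : FreeGroup α) :
    foxT α (foxD α w) = Finsupp.single w 1 - Finsupp.single 1 1 := by
  induction w using FreeGroup.induction_on with
  | C1 => rw [foxD_one, map_zero, sub_self]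
  | of x => rw [foxD_of, foxT_single, one_mul]
  | inv_of x h =>
    have h1 := foxD_mul α (FreeGroup.of x)⁻¹ (FreeGroup.of x)
    rw [inv_mul_cancel, foxD_one] at h1
    have h2 := congrArg (foxT α) h1
    rw [map_zero, map_add, foxT_act, h, mapDomain_sub', Finsupp.mapDomain_single,
      Finsupp.mapDomain_single, inv_mul_cancel, mul_one] at h2
    have h3 := eq_neg_of_add_eq_zero_left h2.symm
    rw [h3, neg_sub]
  | mul x y hx hy =>
    rw [foxD_mul, map_add, foxT_act, hx, hy, mapDomain_sub', Finsupp.mapDomain_single,
      Finsupp.mapDomain_single, mul_one]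
    abel

private theorem fixed_zero {w : FreeGroup α} (hw : w ≠ 1) {u : FreeGroup α →₀ ℤ}
    (hu : u.mapDomain (w * ·) = u) : u = 0 := by
  by_contra h0
  obtain ⟨g, hg⟩ := Finsupp.ne_iff.1 h0
  have h1 : ∀ x, u (w * x) = u x := by
    intro x
    conv_lhs => rw [← hu]
    exact Finsupp.mapDomain_apply (mul_right_injective w) u x
  have h2 : ∀ k : ℕ, u (w ^ k * g) = u g := by
    intro k
    induction k with
    | zero => rw [pow_zero, one_mul]
    | succ k ih => rw [pow_succ', mul_assoc, h1, ih]
  have h3 : Function.Injective fun k : ℕ => w ^ k * g := by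
    intro a b hab
    exact injective_pow_iff_not_isOfFinOrder.2 (not_isOfFinOrder_of_isMulTorsionFree hw)
      (mul_right_cancel hab)
  have h4 : Set.range (fun k : ℕ => w ^ k * g) ⊆ (u.support : Set (FreeGroup α)) := by
    rintro _ ⟨k, rfl⟩
    rw [Finset.mem_coe, Finsupp.mem_support_iff, h2 k]
    exact hg
  exact Set.infinite_range_of_injective h3 (u.support.finite_toSet.subset h4)

private theorem sum_foxT (m : FM α) :
    Finsupp.liftAddHom (fun _ : FreeGroup α => AddMonoidHom.id ℤ) (foxT α m) = 0 := by
  have h : (Finsupp.liftAddHom (fun _ : FreeGroup α => AddMonoidHom.id ℤ)).comp (foxT α) =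
      0 := by
    ext1 p
    ext1
    simp only [AddMonoidHom.comp_apply, Finsupp.singleAddHom_apply, foxT_single, map_sub,
      Finsupp.liftAddHom_apply_single, AddMonoidHom.id_apply, sub_self, AddMonoidHom.zero_apply]
  exact DFunLike.congr_fun h m

end fox

theorem exists_fox (α : Type) : ∃ D : FreeGroup α → (α × FreeGroup α →₀ ℤ),
    (∀ g h, D (g * h) = D g + (D h).mapDomain fun p => (p.1, g * p.2)) ∧
    ∀ w : FreeGroup α, w ≠ 1 → ¬ ∃ b : α × FreeGroup α →₀ ℤ,
      D w = b - b.mapDomain fun p => (p.1, w * p.2) := by
  refine ⟨foxD α, foxD_mul α, ?_⟩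
  rintro w hw ⟨b, hb⟩
  have h1 := congrArg (foxT α) hb
  rw [foxT_foxD, map_sub, foxT_act] at h1
  have h2 : (foxT α b + Finsupp.single 1 1).mapDomain (w * ·) =
      foxT α b + Finsupp.single 1 1 := by
    rw [Finsupp.mapDomain_add, Finsupp.mapDomain_single, mul_one]
    have h3 := sub_eq_sub_iff_add_eq_add.1 h1
    rw [add_comm, h3]
  have h4 := fixed_zero α hw h2
  have h5 := congrArg (Finsupp.liftAddHom fun _ : FreeGroup α => AddMonoidHom.id ℤ) h4
  rw [map_add, sum_foxT, map_zero, Finsupp.liftAddHom_apply_single] at h5
  simp at h5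

end Helper85.FI
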