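import Mathlib

/-!
# FI-01: subgroups of finite index of finitely presented groups are finitely presented

PROOF. `G = Φ / K`, `Φ = FreeGroup (Fin n)`, `p : Φ → G`, `K = ker p = normalClosure R`, `R` finite.
`Φ₁ = H.comap p` has finite index in `Φ`, so it is finitely generated (Mathlib: `Subgroup.fg_of_index_ne_zero`)
and free (Nielsen–Schreier: `subgroupIsFreeOfIsFree`); its basis is finite (a finitely generated free group has a
finite basis: for instance `Φ₁` finitely generated implies that the set of homomorphisms `Φ₁ → ℤ/2` is finite; or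
look for it in Mathlib), hence `Φ₁ ≃* FreeGroup (Fin m)`. The map `Φ₁ → H` is surjective and its kernel is
`K` (as a subgroup of `Φ₁`), which is the normal closure in `Φ₁` of the finite set
`{t r t⁻¹ | t ∈ T, r ∈ R}` where `T` is a finite set of representatives of `Φ₁ \ Φ` (every `g ∈ Φ` is `φ t` with
`φ ∈ Φ₁`, so `g r g⁻¹ = φ (t r t⁻¹) φ⁻¹`).
-/

namespace Helper85.FI

/-- A finitely generated free group has a finite basis. -/
theorem finite_of_fg_freeGroup {α : Type*} (h : Group.FG (FreeGroup α)) : Finite α := by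
  classical
  let f : FreeGroup α →* Multiplicative (α →₀ ℤ) :=
    FreeGroup.lift (fun a => Multiplicative.ofAdd (Finsupp.single a 1))
  have hf : Function.Surjective f := by
    rw [← MonoidHom.range_eq_top, eq_top_iff]
    intro x _
    have key : ∀ y : α →₀ ℤ, Multiplicative.ofAdd y ∈ f.range := by
      intro y
      induction y using Finsupp.induction_linear with
      | zero => exact f.range.one_mem
      | add u v hu hv => exact f.range.mul_mem hu hv
      | single a n =>
        have h1 : Multiplicative.ofAdd (Finsupp.single a n) =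
            (Multiplicative.ofAdd (Finsupp.single a (1 : ℤ))) ^ n := by
          rw [← ofAdd_zsmul]
          simp
        rw [h1]
        exact f.range.zpow_mem ⟨FreeGroup.of a, by simp [f]⟩ n
    exact key x.toAdd
  have h1 : Group.FG (Multiplicative (α →₀ ℤ)) := Group.fg_of_surjective hf
  have h2 : AddGroup.FG (α →₀ ℤ) := AddGroup.fg_iff_mul_fg.2 h1
  have : Module.Finite ℤ (α →₀ ℤ) := Module.Finite.iff_addGroup_fg.2 h2
  exact Module.Finite.finite_basis (Finsupp.basisSingleOne (R := ℤ) (ι := α))

theorem fp_of_finiteIndex {G : Type} [Group G] (hG : Group.IsFinitelyPresented G)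
    (H : Subgroup G) (hH : H.FiniteIndex) : Group.IsFinitelyPresented H := by
  classical
  obtain ⟨n, φ, hφ, S, hS, hSφ⟩ := hG.out
  set P : Subgroup (FreeGroup (Fin n)) := H.comap φ with hP
  have hPfi : P.FiniteIndex :=
    ⟨by rw [hP, Subgroup.index_comap_of_surjective H hφ]; exact hH.index_ne_zero⟩
  have : Group.FG P := Subgroup.fg_of_index_ne_zero P
  have : IsFreeGroup P := inferInstance
  let e := IsFreeGroup.toFreeGroup P
  have : Group.FG (FreeGroup (IsFreeGroup.Generators P)) :=
    Group.fg_of_surjective (f := e.toMonoidHom) e.surjective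
  have : Finite (IsFreeGroup.Generators P) := finite_of_fg_freeGroup inferInstance
  have : Group.IsFinitelyPresented P := Group.IsFinitelyPresented.equiv e.symm
  let ψ : P →* H := φ.subgroupComap H
  have hψ : Function.Surjective ψ := by
    rintro ⟨h, hh⟩
    obtain ⟨x, rfl⟩ := hφ h
    exact ⟨⟨x, hh⟩, rfl⟩
  have hval : ∀ x : P, ((ψ x : H) : G) = φ x := fun x => rfl
  refine Group.IsFinitelyPresented.of_surjective ψ hψ ?_
  have hker : ∀ r ∈ S, φ r = 1 := fun r hr => by
    have : r ∈ φ.ker := hSφ ▸ Subgroup.subset_normalClosure hr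
    exact this
  have hone : ∀ (t r : FreeGroup (Fin n)), r ∈ S → φ (t⁻¹ * r * t) = 1 := fun t r hr => by
    rw [map_mul, map_mul, hker r hr, map_inv]
    simp
  let T : Set P := Set.range fun x : (FreeGroup (Fin n) ⧸ P) × S =>
    (⟨x.1.out⁻¹ * x.2 * x.1.out, by
      have h3 : φ (x.1.out⁻¹ * x.2 * x.1.out) ∈ H := by
        rw [hone _ _ x.2.2]
        exact H.one_mem
      exact h3⟩ : P)
  have : Finite S := hS
  have : Finite (FreeGroup (Fin n) ⧸ P) := Subgroup.finite_quotient_of_finiteIndex
  refine ⟨T, Set.finite_range _, le_antisymm ?_ ?_⟩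
  · apply Subgroup.normalClosure_le_normal
    rintro _ ⟨x, rfl⟩
    rw [SetLike.mem_coe, MonoidHom.mem_ker]
    apply Subtype.ext
    rw [hval]
    exact hone _ _ x.2.2
  · have hle : Subgroup.normalClosure S ≤ (Subgroup.normalClosure T).map P.subtype := by
      rw [Subgroup.normalClosure, Subgroup.closure_le]
      intro y hy
      obtain ⟨r, hr, hc⟩ := Group.mem_conjugatesOfSet_iff.1 hy
      obtain ⟨g, hg⟩ := isConj_iff.1 hc
      set q : FreeGroup (Fin n) ⧸ P := QuotientGroup.mk g⁻¹ with hq
      have hmem : q.out⁻¹ * g⁻¹ ∈ P := by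
        rw [← QuotientGroup.eq, QuotientGroup.out_eq']
      have hm2 : q.out⁻¹ * r * q.out ∈ P := by
        have h3 : φ (q.out⁻¹ * r * q.out) ∈ H := by
          rw [hone _ _ hr]
          exact H.one_mem
        exact h3
      have h1 : (⟨q.out⁻¹ * r * q.out, hm2⟩ : P) ∈
          Subgroup.normalClosure T := Subgroup.subset_normalClosure ⟨(q, ⟨r, hr⟩), rfl⟩
      have h2 := (Subgroup.normalClosure_normal (s := T)).conj_mem _ h1
        (⟨q.out⁻¹ * g⁻¹, hmem⟩ : P)⁻¹
      refine ⟨_, h2, ?_⟩
      simp only [Subgroup.subtype_apply, Subgroup.coe_mul, Subgroup.coe_inv]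
      rw [← hg]
      group
    intro x hx
    have hx' : (x : FreeGroup (Fin n)) ∈ φ.ker := by
      rw [MonoidHom.mem_ker, ← hval, MonoidHom.mem_ker.1 hx]
      rfl
    rw [← hSφ] at hx'
    obtain ⟨y, hy, hyx⟩ := hle hx'
    have : y = x := Subtype.ext hyx
    rw [← this]
    exact hy

end Helper85.FI
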