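import Pool.Agent.Helper85.FI.Defs

/-!
# FI-06: lifting of crossed homomorphisms for finitely presented groups

PROOF. `H = Φ / K`, `p : Φ = FreeGroup (Fin n) → H`, `K = ker p = normalClosure R`, `R` finite. The crossed homomorphism
`D ∘ p : Φ → ℤ[β × H ⧸ N]` (over `p`) is determined by its values `D (p x_i)` on the `n` generators. Choose
`c_i ∈ ℤ[β × H ⧸ ⊥]` (or any `E`) with image `D (p x_i)` in `ℤ[β × H ⧸ N]` (the projection is surjective) and let
`D₀ : Φ → ℤ[β × H ⧸ ⊥]` be the crossed homomorphism over `p` with values `c_i` (semidirect product trick: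
`FreeGroup.lift` into `Multiplicative (β × (H ⧸ ⊥) →₀ ℤ) ⋊ H`, or directly with affine maps). For `r ∈ R`: `D₀ r` has image
`D (p r) = D 1 = 0` in `ℤ[β × H ⧸ N]`. An element of `ℤ[β × H]` which has image `0` in `ℤ[β × H ⧸ N]` has image `0`
in `ℤ[β × H ⧸ E]` for a finitely generated `E ≤ N` (the finitely many points of its support: for each pair `(b, g), (b, g')`
with `g N = g' N` put `g⁻¹ g'` into `E`; then the pushforward to `β × H ⧸ E` is the pushforward which only depends on the
classes mod `N`, and vanishes), and the same `E` can be taken for all `r ∈ R`. Then the image `D₁` of `D₀` in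
`ℤ[β × H ⧸ E]` is a crossed homomorphism over `p` which vanishes on `R`, hence on `K` (on `K` it is additive, and
`D₁ (g k g⁻¹) = g • D₁ k`), so it factors through `H`: `D'`. `proj ∘ D'` and `D` are crossed homomorphisms on `H` which agree on
the generators `p x_i`, so they are equal.
-/

namespace Helper85.FI

open Helper85.NS

section
variable {H β : Type} [Group H]

/-- the action as a homomorphism -/
private noncomputable def lf_act (E : Subgroup H) : H →* AddMonoid.End (β × (H ⧸ E) →₀ ℤ) where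
  toFun h := Finsupp.mapDomain.addMonoidHom fun p : β × (H ⧸ E) => (p.1, h • p.2)
  map_one' := by
    refine AddMonoidHom.ext fun c => ?_
    show Finsupp.mapDomain (fun p : β × (H ⧸ E) => (p.1, (1 : H) • p.2)) c = c
    simp only [one_smul]
    exact Finsupp.mapDomain_id
  map_mul' g h := by
    refine AddMonoidHom.ext fun c => ?_
    show Finsupp.mapDomain (fun p : β × (H ⧸ E) => (p.1, (g * h) • p.2)) c =
      Finsupp.mapDomain (fun p : β × (H ⧸ E) => (p.1, g • p.2))
        (Finsupp.mapDomain (fun p : β × (H ⧸ E) => (p.1, h • p.2)) c)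
    rw [← Finsupp.mapDomain_comp]
    simp only [mul_smul]
    rfl

private theorem lf_act_apply (E : Subgroup H) (h : H) (c : β × (H ⧸ E) →₀ ℤ) :
    lf_act E h c = act E h c := rfl

private theorem lf_proj_add {E N : Subgroup H} (h : E ≤ N) (c d : β × (H ⧸ E) →₀ ℤ) :
    proj h (c + d) = proj h c + proj h d := Finsupp.mapDomain_add

private theorem lf_proj_act {E N : Subgroup H} (h : E ≤ N) (g : H) (c : β × (H ⧸ E) →₀ ℤ) :
    proj h (act E g c) = act N g (proj h c) := by
  unfold proj act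
  rw [← Finsupp.mapDomain_comp, ← Finsupp.mapDomain_comp]
  congr 1
  funext p
  obtain ⟨b, q⟩ := p
  induction q using QuotientGroup.induction_on with
  | H z => rfl

private theorem lf_proj_proj {E N L : Subgroup H} (h : E ≤ N) (h' : N ≤ L)
    (c : β × (H ⧸ E) →₀ ℤ) : proj h' (proj h c) = proj (h.trans h') c := by
  unfold proj
  rw [← Finsupp.mapDomain_comp]
  congr 1
  funext p
  obtain ⟨b, q⟩ := p
  induction q using QuotientGroup.induction_on with
  | H z => rfl

private theorem lf_proj_surj {N : Subgroup H} (h : (⊥ : Subgroup H) ≤ N)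
    (c : β × (H ⧸ N) →₀ ℤ) : ∃ d : β × (H ⧸ (⊥ : Subgroup H)) →₀ ℤ, proj h d = c := by
  apply Finsupp.mapDomain_surjective
  rintro ⟨b, q⟩
  induction q using QuotientGroup.induction_on with
  | H z => exact ⟨(b, (z : H ⧸ (⊥ : Subgroup H))), rfl⟩

private theorem lf_kill {N : Subgroup H} (S : Set (β × (H ⧸ (⊥ : Subgroup H)))) (hS : S.Finite) :
    ∃ (E : Subgroup H) (_ : E ≤ N), E.FG ∧ ∀ c : β × (H ⧸ (⊥ : Subgroup H)) →₀ ℤ,
      (c.support : Set _) ⊆ S → proj (bot_le : ⊥ ≤ N) c = 0 → proj (bot_le : ⊥ ≤ E) c = 0 := by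
  classical
  set G : Set H := {x | ∃ p ∈ S, ∃ q ∈ S, x = (Quotient.out p.2)⁻¹ * Quotient.out q.2 ∧ x ∈ N}
    with hG
  have hGfin : G.Finite := by
    refine ((hS.prod hS).image
      (fun pq : (β × (H ⧸ (⊥ : Subgroup H))) × (β × (H ⧸ (⊥ : Subgroup H))) =>
        (Quotient.out pq.1.2)⁻¹ * Quotient.out pq.2.2)).subset ?_
    rintro x ⟨p, hp, q, hq, hx, -⟩
    exact ⟨(p, q), ⟨hp, hq⟩, hx.symm⟩
  have hEN : Subgroup.closure G ≤ N := by
    rw [Subgroup.closure_le]
    rintro x ⟨p, hp, q, hq, -, hx⟩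
    exact hx
  refine ⟨Subgroup.closure G, hEN, (Subgroup.fg_iff _).2 ⟨G, rfl, hGfin⟩, fun c hc h0 => ?_⟩
  rw [← lf_proj_proj (bot_le : ⊥ ≤ Subgroup.closure G) hEN] at h0
  set f : β × (H ⧸ (⊥ : Subgroup H)) → β × (H ⧸ Subgroup.closure G) :=
    fun p => (p.1, Subgroup.quotientMapOfLE bot_le p.2) with hf
  have hinj : Set.InjOn (fun p : β × (H ⧸ Subgroup.closure G) =>
      ((p.1, Subgroup.quotientMapOfLE hEN p.2) : β × (H ⧸ N))) (f '' (c.support : Set _)) := by
    rintro _ ⟨p, hp, rfl⟩ _ ⟨q, hq, rfl⟩ hpq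
    have h1 : p.1 = q.1 := (Prod.ext_iff.1 hpq).1
    have h2 := (Prod.ext_iff.1 hpq).2
    have ep : p.2 = ((Quotient.out p.2 : H) : H ⧸ (⊥ : Subgroup H)) := (Quotient.out_eq p.2).symm
    have eq : q.2 = ((Quotient.out q.2 : H) : H ⧸ (⊥ : Subgroup H)) := (Quotient.out_eq q.2).symm
    simp only [hf] at h2 ⊢
    rw [ep, eq] at h2
    rw [ep, eq]
    simp only [Subgroup.quotientMapOfLE_apply_mk] at h2 ⊢
    rw [QuotientGroup.eq] at h2
    rw [h1]
    congr 1
    rw [QuotientGroup.eq]
    exact Subgroup.subset_closure ⟨p, hc hp, q, hc hq, rfl, h2⟩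
  refine Finsupp.mapDomain_injOn (M := ℤ) _ hinj ?_ ?_ (h0.trans Finsupp.mapDomain_zero.symm)
  · intro y hy
    have := Finsupp.mapDomain_support hy
    rw [Finset.mem_image] at this
    obtain ⟨x, hx, hxy⟩ := this
    exact ⟨x, hx, hxy⟩
  · intro y hy
    exact absurd hy (by simp)

variable {M ι : Type} [AddCommGroup M] (a : H →* AddMonoid.End M) (φ : FreeGroup ι →* H)

private theorem lf_inv (g : H) (m : M) : a g⁻¹ (a g m) = m := by
  have : (a g⁻¹ * a g) m = m := by rw [← map_mul, inv_mul_cancel, map_one]; rfl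
  exact this

private theorem lf_inv' (g : H) (m : M) : a g (a g⁻¹ m) = m := by
  have : (a g * a g⁻¹) m = m := by rw [← map_mul, mul_inv_cancel, map_one]; rfl
  exact this

private def lf_perm (g : H) (c : M) : Equiv.Perm M where
  toFun m := a g m + c
  invFun m := a g⁻¹ (m - c)
  left_inv m := by
    show a g⁻¹ (a g m + c - c) = m
    rw [add_sub_cancel_right, lf_inv]
  right_inv m := by
    show a g (a g⁻¹ (m - c)) + c = m
    rw [lf_inv', sub_add_cancel]

private theorem lf_free (c : ι → M) : ∃ D₀ : FreeGroup ι → M,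
    (∀ u v, D₀ (u * v) = D₀ u + a (φ u) (D₀ v)) ∧ ∀ i, D₀ (FreeGroup.of i) = c i := by
  set T : FreeGroup ι →* Equiv.Perm M :=
    FreeGroup.lift (fun i => lf_perm a (φ (FreeGroup.of i)) (c i)) with hT
  have h1 : ∀ w m, T w m = a (φ w) m + T w 0 := by
    intro w
    induction w using FreeGroup.induction_on with
    | C1 =>
      intro m
      rw [map_one, map_one, map_one]
      show m = m + 0
      rw [add_zero]
    | of i =>
      intro m
      rw [hT, FreeGroup.lift_apply_of]
      show a _ m + c i = a _ m + (a _ 0 + c i)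
      rw [map_zero, zero_add]
    | inv_of i _ =>
      intro m
      rw [map_inv, hT, FreeGroup.lift_apply_of, map_inv]
      show a _ (m - c i) = a _ m + a _ (0 - c i)
      rw [← map_add, ← add_sub_assoc, add_zero]
    | mul u v hu hv =>
      intro m
      rw [map_mul, map_mul, map_mul]
      show T u (T v m) = a (φ u) (a (φ v) m) + T u (T v 0)
      rw [hu (T v m), hu (T v 0), hv m, map_add, add_assoc]
  refine ⟨fun w => T w 0, fun u v => ?_, fun i => ?_⟩
  · show T (u * v) 0 = T u 0 + a (φ u) (T v 0)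
    rw [map_mul]
    show T u (T v 0) = _
    rw [h1 u (T v 0), add_comm]
  · show T (FreeGroup.of i) 0 = c i
    rw [hT, FreeGroup.lift_apply_of]
    show a _ 0 + c i = c i
    rw [map_zero, zero_add]

private theorem lf_one {D : FreeGroup ι → M} (hD : ∀ u v, D (u * v) = D u + a (φ u) (D v)) :
    D 1 = 0 := by
  have := hD 1 1
  rw [mul_one, map_one, map_one] at this
  have h2 : D 1 = D 1 + D 1 := this
  exact left_eq_add.1 h2

private theorem lf_invD {D : FreeGroup ι → M} (hD : ∀ u v, D (u * v) = D u + a (φ u) (D v))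
    (u : FreeGroup ι) : D u⁻¹ = - a (φ u⁻¹) (D u) := by
  have := hD u⁻¹ u
  rw [inv_mul_cancel, lf_one a φ hD] at this
  exact eq_neg_of_add_eq_zero_left this.symm

private theorem lf_uniq {D D' : FreeGroup ι → M} (hD : ∀ u v, D (u * v) = D u + a (φ u) (D v))
    (hD' : ∀ u v, D' (u * v) = D' u + a (φ u) (D' v))
    (h : ∀ i, D (FreeGroup.of i) = D' (FreeGroup.of i)) (w : FreeGroup ι) : D w = D' w := by
  induction w using FreeGroup.induction_on with
  | C1 => rw [lf_one a φ hD, lf_one a φ hD']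
  | of i => exact h i
  | inv_of i _ => rw [lf_invD a φ hD, lf_invD a φ hD', h i]
  | mul u v hu hv => rw [hD, hD', hu, hv]

private theorem lf_ker {D : FreeGroup ι → M} (hD : ∀ u v, D (u * v) = D u + a (φ u) (D v))
    {R : Set (FreeGroup ι)} (hR : Subgroup.normalClosure R = φ.ker) (h : ∀ r ∈ R, D r = 0)
    (w : FreeGroup ι) (hw : φ w = 1) : D w = 0 := by
  let K : Subgroup (FreeGroup ι) :=
    { carrier := {w | φ w = 1 ∧ D w = 0}
      mul_mem' := by
        rintro u v ⟨h1, h2⟩ ⟨h3, h4⟩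
        refine ⟨by rw [map_mul, h1, h3, one_mul], ?_⟩
        rw [hD, h2, h4, map_zero, add_zero]
      one_mem' := ⟨map_one φ, lf_one a φ hD⟩
      inv_mem' := by
        rintro u ⟨h1, h2⟩
        refine ⟨by rw [map_inv, h1, inv_one], ?_⟩
        rw [lf_invD a φ hD, h2, map_zero, neg_zero] }
  have hK : K.Normal := by
    refine ⟨fun k hk g => ?_⟩
    obtain ⟨h1, h2⟩ := hk
    refine ⟨by rw [map_mul, map_mul, h1, mul_one, map_inv, mul_inv_cancel], ?_⟩
    rw [hD, hD, h2, map_zero, add_zero, lf_invD a φ hD, map_mul, h1, mul_one, map_neg, map_inv,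
      lf_inv', add_neg_cancel]
  have hle : Subgroup.normalClosure R ≤ K := by
    apply Subgroup.normalClosure_le_normal
    intro r hr
    refine ⟨?_, h r hr⟩
    have : r ∈ φ.ker := by rw [← hR]; exact Subgroup.subset_normalClosure hr
    exact this
  have : w ∈ K := hle (by rw [hR]; exact hw)
  exact this.2

end

theorem exists_lift {H β : Type} [Group H] (hH : Group.IsFinitelyPresented H) (N : Subgroup H)
    (hN : N.Normal) (D : H → (β × (H ⧸ N) →₀ ℤ)) (hD : IsDer N D) :
    ∃ (E : Subgroup H) (hE : E ≤ N), E.FG ∧ ∃ D' : H → (β × (H ⧸ E) →₀ ℤ),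
      IsDer E D' ∧ ∀ h, proj hE (D' h) = D h := by
  obtain ⟨n, φ, hφ, R, hRfin, hR⟩ := hH.out
  choose c hc using fun i : Fin n => lf_proj_surj (bot_le : ⊥ ≤ N) (D (φ (FreeGroup.of i)))
  obtain ⟨D₀, hD₀, hD₀i⟩ := lf_free (lf_act ⊥) φ c
  have h3 : ∀ w, proj (bot_le : ⊥ ≤ N) (D₀ w) = D (φ w) := by
    refine lf_uniq (lf_act N) φ (D := fun w => proj (bot_le : ⊥ ≤ N) (D₀ w))
      (D' := fun w => D (φ w)) ?_ ?_ ?_
    · intro u v
      show proj _ (D₀ (u * v)) = proj _ (D₀ u) + act N (φ u) (proj _ (D₀ v))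
      rw [hD₀, lf_proj_add, lf_act_apply, lf_proj_act]
    · intro u v
      show D (φ (u * v)) = D (φ u) + act N (φ u) (D (φ v))
      rw [map_mul, hD]
    · intro i
      show proj _ (D₀ (FreeGroup.of i)) = D (φ (FreeGroup.of i))
      rw [hD₀i, hc]
  have hD1 : D 1 = 0 := by
    have h := hD 1 1
    rw [mul_one, ← lf_act_apply, map_one] at h
    have h2 : D 1 = D 1 + D 1 := h
    exact left_eq_add.1 h2
  have hfin : (⋃ r ∈ R, ((D₀ r).support : Set (β × (H ⧸ (⊥ : Subgroup H))))).Finite :=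
    hRfin.biUnion fun r _ => Finset.finite_toSet _
  obtain ⟨E, hEN, hE, hkill⟩ := lf_kill (N := N) _ hfin
  set D₁ : FreeGroup (Fin n) → (β × (H ⧸ E) →₀ ℤ) := fun w => proj (bot_le : ⊥ ≤ E) (D₀ w) with hD₁
  have h4 : ∀ u v, D₁ (u * v) = D₁ u + lf_act E (φ u) (D₁ v) := by
    intro u v
    rw [hD₁]
    show proj _ (D₀ (u * v)) = proj _ (D₀ u) + act E (φ u) (proj _ (D₀ v))
    rw [hD₀, lf_proj_add, lf_act_apply, lf_proj_act]
  have h5 : ∀ r ∈ R, D₁ r = 0 := by
    intro r hr
    refine hkill _ (fun x hx => Set.mem_biUnion hr hx) ?_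
    rw [h3]
    have : r ∈ φ.ker := by rw [← hR]; exact Subgroup.subset_normalClosure hr
    have h6 : φ r = 1 := this
    rw [h6, hD1]
  have h6 : ∀ u v, φ u = φ v → D₁ u = D₁ v := by
    intro u v huv
    have h7 := h4 v (v⁻¹ * u)
    rw [mul_inv_cancel_left] at h7
    rw [h7, lf_ker (lf_act E) φ h4 hR h5 (v⁻¹ * u) (by
      rw [map_mul, map_inv, huv, inv_mul_cancel]), map_zero, add_zero]
  have hsi : ∀ h, φ (Function.surjInv hφ h) = h := Function.surjInv_eq hφ
  refine ⟨E, hEN, hE, fun h => D₁ (Function.surjInv hφ h), ?_, ?_⟩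
  · intro g h
    show D₁ (Function.surjInv hφ (g * h)) =
      D₁ (Function.surjInv hφ g) + act E g (D₁ (Function.surjInv hφ h))
    rw [h6 (Function.surjInv hφ (g * h)) (Function.surjInv hφ g * Function.surjInv hφ h) (by
      rw [map_mul, hsi, hsi, hsi]), h4, hsi]
    rfl
  · intro h
    show proj hEN (proj _ (D₀ (Function.surjInv hφ h))) = D h
    rw [lf_proj_proj, h3, hsi]

end Helper85.FI
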