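import Pool.Agent.Helper85.FI.Defs

/-!
# FI-04: free groups are LERF (M. Hall)

PROOF. Let `F = FreeGroup α`, `H` generated by a finite set `S`, `g ∉ H`. Let `X` be the set of right cosets
`H \ F` (or use left cosets and inverses), and `T ⊆ X` the finite set of the cosets `H u` where `u` runs over the prefixes
of the reduced words of the elements of `S` and of `g` (with `u = 1`). Each letter `x ∈ α` acts on `X` by a permutation and
induces a bijection from `{t ∈ T | t x ∈ T}` onto a subset of `T`; extend it to a permutation `σ_x` of the finite set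
`T` (Mathlib: `Function.Embedding`/`Equiv.Perm` extension such as `Equiv.extendSubtype`). The homomorphism `F → Perm T`,
`x ↦ σ_x`, satisfies: following the word of `s ∈ S` from `H` ends at `H s = H`, following the word of `g` ends at
`H g ≠ H`. The stabilizer of the point `H` of `T` is a subgroup of finite index which contains `S` and not `g`.
-/

namespace Helper85.FI

open Helper85.NS

namespace MHallAux

variable {α : Type} {X : Type} [MulAction (FreeGroup α) X]

/-- a permutation of `T` which extends the partial action of the letter `x` -/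
theorem exists_perm (T : Set X) [Finite T] (x : α) :
    ∃ σ : Equiv.Perm T, ∀ (t : T) (h : FreeGroup.of x • (t : X) ∈ T),
      σ t = ⟨FreeGroup.of x • (t : X), h⟩ := by
  obtain ⟨σ, hσ⟩ := Equiv.Perm.exists_extending_pair
    (fun t : {t : T // FreeGroup.of x • (t : X) ∈ T} => t.1)
    (fun t : {t : T // FreeGroup.of x • (t : X) ∈ T} => (⟨FreeGroup.of x • (t.1 : X), t.2⟩ : T))
    Subtype.val_injective (by
      intro a b hab
      have h1 : FreeGroup.of x • (a.1 : X) = FreeGroup.of x • (b.1 : X) :=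
        congrArg Subtype.val hab
      exact Subtype.ext (Subtype.ext (smul_left_cancel _ h1)))
  exact ⟨σ, fun t h => hσ ⟨t, h⟩⟩

theorem follow (T : Set X) (σ : α → Equiv.Perm T)
    (hσ : ∀ x (t : T) (h : FreeGroup.of x • (t : X) ∈ T), σ x t = ⟨FreeGroup.of x • (t : X), h⟩)
    (t₀ : T) (L : List (α × Bool)) (hL : ∀ L', L' <:+ L → FreeGroup.mk L' • (t₀ : X) ∈ T) :
    ((FreeGroup.lift σ (FreeGroup.mk L) t₀ : T) : X) = FreeGroup.mk L • (t₀ : X) := by
  induction L with
  | nil =>
    have h1 : (FreeGroup.mk [] : FreeGroup α) = 1 := rfl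
    rw [h1, map_one, one_smul]
    rfl
  | cons a L ih =>
    have ih' := ih (fun L' h => hL L' (h.trans (List.suffix_cons a L)))
    have h0 : FreeGroup.mk L • (t₀ : X) ∈ T := hL L (List.suffix_cons a L)
    have h1 : FreeGroup.mk (a :: L) • (t₀ : X) ∈ T := hL (a :: L) (List.suffix_refl _)
    have ih2 : FreeGroup.lift σ (FreeGroup.mk L) t₀ = ⟨FreeGroup.mk L • (t₀ : X), h0⟩ :=
      Subtype.ext ih'
    obtain ⟨x, b⟩ := a
    cases b with
    | true =>
      have h2 : (FreeGroup.mk ((x, true) :: L) : FreeGroup α) = FreeGroup.of x * FreeGroup.mk L := rfl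
      rw [h2] at h1 ⊢
      rw [mul_smul] at h1 ⊢
      rw [map_mul, FreeGroup.lift_apply_of, Equiv.Perm.mul_apply, ih2, hσ x _ h1]
    | false =>
      have h2 : (FreeGroup.mk ((x, false) :: L) : FreeGroup α) =
          (FreeGroup.of x)⁻¹ * FreeGroup.mk L := rfl
      rw [h2] at h1 ⊢
      rw [mul_smul] at h1 ⊢
      have h3 : FreeGroup.of x • ((⟨(FreeGroup.of x)⁻¹ • FreeGroup.mk L • (t₀ : X), h1⟩ : T) : X) =
          FreeGroup.mk L • (t₀ : X) := smul_inv_smul _ _
      have h4 : σ x ⟨(FreeGroup.of x)⁻¹ • FreeGroup.mk L • (t₀ : X), h1⟩ =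
          ⟨FreeGroup.mk L • (t₀ : X), h0⟩ := by
        rw [hσ x _ (by rw [h3]; exact h0)]
        exact Subtype.ext h3
      rw [map_mul, map_inv, FreeGroup.lift_apply_of, Equiv.Perm.mul_apply, ih2, ← h4]
      show (((σ x).symm (σ x _) : T) : X) = _
      rw [Equiv.symm_apply_apply]

end MHallAux

theorem freeGroup_lerf (α : Type) : LERF (FreeGroup α) := by
  intro H hH g hg
  obtain ⟨S, hS⟩ := hH
  have hrep : ∀ u : FreeGroup α, ∃ L : List (α × Bool), FreeGroup.mk L = u := fun u => Quot.exists_rep u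
  choose L hL using hrep
  let p₀ : FreeGroup α ⧸ H := ((1 : FreeGroup α) : FreeGroup α ⧸ H)
  let T : Set (FreeGroup α ⧸ H) := {p₀} ∪ ⋃ u ∈ (insert g (S : Set (FreeGroup α))),
    (fun L' : List (α × Bool) => FreeGroup.mk L' • p₀) '' {L' | L' ∈ (L u).tails}
  have hfin : T.Finite := by
    refine (Set.finite_singleton _).union (Set.Finite.biUnion (S.finite_toSet.insert g) ?_)
    intro u _
    exact (List.finite_toSet _).image _
  have : Finite T := hfin
  have hp₀ : p₀ ∈ T := Or.inl rfl
  have hT : ∀ u ∈ (insert g (S : Set (FreeGroup α))), ∀ L', L' <:+ L u →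
      FreeGroup.mk L' • p₀ ∈ T := by
    intro u hu L' hL'
    refine Or.inr ?_
    rw [Set.mem_iUnion₂]
    exact ⟨u, hu, L', (List.mem_tails _ _).2 hL', rfl⟩
  choose σ hσ using fun x : α => MHallAux.exists_perm T x
  have key : ∀ u ∈ (insert g (S : Set (FreeGroup α))),
      ((FreeGroup.lift σ u ⟨p₀, hp₀⟩ : T) : FreeGroup α ⧸ H) = u • p₀ := by
    intro u hu
    have h := MHallAux.follow T σ hσ ⟨p₀, hp₀⟩ (L u) (hT u hu)
    rw [hL u] at h
    exact h
  have hsmul : ∀ u : FreeGroup α, u • p₀ = p₀ ↔ u ∈ H := by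
    intro u
    have h1 : u • p₀ = ((u * 1 : FreeGroup α) : FreeGroup α ⧸ H) := rfl
    rw [h1, mul_one]
    have h2 : ((u : FreeGroup α) : FreeGroup α ⧸ H) = ((1 : FreeGroup α) : FreeGroup α ⧸ H) ↔ u ∈ H := by
      rw [eq_comm, QuotientGroup.eq, inv_one, one_mul]
    exact h2
  let K : Subgroup (FreeGroup α) :=
    (MulAction.stabilizer (Equiv.Perm T) (⟨p₀, hp₀⟩ : T)).comap (FreeGroup.lift σ)
  have hK : ∀ u ∈ (insert g (S : Set (FreeGroup α))), u ∈ K ↔ u ∈ H := by
    intro u hu
    rw [← hsmul u, ← key u hu]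
    show FreeGroup.lift σ u • (⟨p₀, hp₀⟩ : T) = ⟨p₀, hp₀⟩ ↔ _
    rw [Equiv.Perm.smul_def]
    exact ⟨fun h => congrArg Subtype.val h, fun h => Subtype.ext h⟩
  refine ⟨K, ?_, ?_, fun h => hg ((hK g (Set.mem_insert _ _)).1 h)⟩
  · refine ⟨?_⟩
    rw [Subgroup.index_comap]
    exact Subgroup.FiniteIndex.index_ne_zero
  · rw [← hS, Subgroup.closure_le]
    intro s hs
    exact (hK s (Set.mem_insert_of_mem _ hs)).2 (hS ▸ Subgroup.subset_closure hs)

end Helper85.FI
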