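import Pool.Agent.Helper85.FI.Defs

/-!
# FI-07: invariants and coinvariants

PROOF. Let `S = β × (H ⧸ E)`, `S' = β × (H ⧸ N)`; the powers of `w` act freely on `S'` (and so on `S`):
`w^k g N = g N` gives `g⁻¹ w^k g ∈ N`, `w^k ∈ N`, `k = 0`.
(a) Let `Y = S / ⟨w⟩` (orbit relation of the action of the powers of `w`), and `c̄ : Y →₀ ℤ` the pushforward of `c`. `N` acts
on `Y`, because it commutes with `w`. By `hc`, `c̄` is invariant under `N` (the pushforwards of `b` and of `w • b` are
equal). The orbits of `N` on `Y` are infinite: if `n (b, g E) = w^k (b, g E)` then modulo `N` we get `k = 0`, so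
`n ∈ g E g⁻¹`; the stabilizer in `N` of the class of `(b, g E)` is `g E g⁻¹`, which has infinite index in `N` (conjugation by `g`
maps `N` onto `N` and `E` onto `g E g⁻¹`). So the finite support of `c̄` is empty: `c̄ = 0`.
(b) Hence the pushforward of `proj hE c` to `S' / ⟨w⟩` is `0`.
(c) If `c' : S' →₀ ℤ` has pushforward `0` to `S' / ⟨w⟩` then `c' = b - w • b` for some `b`: modulo `{b - w • b}` (an additive
subgroup) `single s m` is congruent to `single (w^k s) m` for every `k : ℤ`; so `c'` is congruent to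
the sum over the classes of (sum of the coefficients of the class) times a representative, i.e. to `0`.
-/

namespace Helper85.FI

open Helper85.NS

namespace OrbitAux

variable {H β : Type} [Group H]

/-- the action on the points of the permutation module -/
def aw (E : Subgroup H) (h : H) (p : β × (H ⧸ E)) : β × (H ⧸ E) := (p.1, h • p.2)

theorem aw_mul (E : Subgroup H) (g h : H) (p : β × (H ⧸ E)) :
    aw E (g * h) p = aw E g (aw E h p) := by
  unfold aw
  rw [mul_smul]

theorem aw_one (E : Subgroup H) (p : β × (H ⧸ E)) : aw E 1 p = p := by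
  unfold aw
  rw [one_smul]

theorem act_eq (E : Subgroup H) (h : H) (c : β × (H ⧸ E) →₀ ℤ) :
    act E h c = c.mapDomain (aw E h) := rfl

/-- orbits of the powers of `w` -/
def wset (β : Type) (E : Subgroup H) (w : H) : Setoid (β × (H ⧸ E)) where
  r p q := ∃ k : ℤ, aw E (w ^ k) p = q
  iseqv := by
    refine ⟨fun p => ⟨0, ?_⟩, ?_, ?_⟩
    · rw [zpow_zero, aw_one]
    · rintro p q ⟨k, hk⟩
      refine ⟨-k, ?_⟩
      rw [← hk, ← aw_mul, ← zpow_add, neg_add_cancel, zpow_zero, aw_one]
    · rintro p q r ⟨k, hk⟩ ⟨l, hl⟩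
      refine ⟨l + k, ?_⟩
      rw [zpow_add, aw_mul, hk, hl]

/-- the class of a point -/
def cl (E : Subgroup H) (w : H) (p : β × (H ⧸ E)) : Quotient (wset β E w) :=
  Quotient.mk (wset β E w) p

theorem cl_eq {E : Subgroup H} {w : H} {p q : β × (H ⧸ E)} :
    cl E w p = cl E w q ↔ ∃ k : ℤ, aw E (w ^ k) p = q := by
  unfold cl
  rw [Quotient.eq]
  exact Iff.rfl

/-- `b ↦ b - w • b` -/
noncomputable def Fh (β : Type) (E : Subgroup H) (w : H) :
    (β × (H ⧸ E) →₀ ℤ) →+ (β × (H ⧸ E) →₀ ℤ) :=
  AddMonoidHom.id _ - Finsupp.mapDomain.addMonoidHom (aw E w)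

theorem Fh_apply (E : Subgroup H) (w : H) (b : β × (H ⧸ E) →₀ ℤ) :
    Fh β E w b = b - act E w b := rfl

theorem single_mem (E : Subgroup H) (w : H) (p : β × (H ⧸ E)) (m : ℤ) (k : ℤ) :
    Finsupp.single p m - Finsupp.single (aw E (w ^ k) p) m ∈ (Fh β E w).range := by
  have step : ∀ q : β × (H ⧸ E),
      Finsupp.single q m - Finsupp.single (aw E w q) m ∈ (Fh β E w).range := by
    intro q
    refine ⟨Finsupp.single q m, ?_⟩
    rw [Fh_apply, act_eq, Finsupp.mapDomain_single]
  induction k using Int.induction_on with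
  | zero =>
    rw [zpow_zero, aw_one, sub_self]
    exact zero_mem _
  | succ i ih =>
    have h1 := step (aw E (w ^ (i : ℤ)) p)
    have h2 := add_mem ih h1
    rw [sub_add_sub_cancel, ← aw_mul, ← zpow_one_add, add_comm (1 : ℤ)] at h2
    exact h2
  | pred i ih =>
    have h1 := step (aw E (w ^ (-(i : ℤ) - 1)) p)
    rw [← aw_mul, ← zpow_one_add] at h1
    have e : (1 : ℤ) + (-(i : ℤ) - 1) = -(i : ℤ) := by ring
    rw [e] at h1
    have h2 := sub_mem ih h1
    have e2 : Finsupp.single p m - Finsupp.single (aw E (w ^ (-(i : ℤ))) p) m -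
        (Finsupp.single (aw E (w ^ (-(i : ℤ) - 1)) p) m -
          Finsupp.single (aw E (w ^ (-(i : ℤ))) p) m) =
        Finsupp.single p m - Finsupp.single (aw E (w ^ (-(i : ℤ) - 1)) p) m := by
      abel
    rwa [e2] at h2

theorem coinv (E : Subgroup H) (w : H) (c : β × (H ⧸ E) →₀ ℤ)
    (hc : c.mapDomain (cl E w) = 0) : ∃ b, c = b - act E w b := by
  set r : β × (H ⧸ E) → β × (H ⧸ E) := fun p => (cl E w p).out with hr
  have h1 : c.mapDomain r = 0 := by
    have : r = Quotient.out ∘ cl E w := rfl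
    rw [this, Finsupp.mapDomain_comp, hc, Finsupp.mapDomain_zero]
  have h2 : c - c.mapDomain r ∈ (Fh β E w).range := by
    have e1 : c - c.mapDomain r =
        c.sum fun p m => (Finsupp.single p m - Finsupp.single (r p) m) := by
      rw [Finsupp.sum_sub, Finsupp.sum_single]
      rfl
    rw [e1]
    refine sum_mem fun p _ => ?_
    have h3 : cl E w p = cl E w (r p) := by
      rw [hr]
      exact (Quotient.out_eq _).symm
    obtain ⟨k, hk⟩ := cl_eq.1 h3
    change Finsupp.single p (c p) - Finsupp.single (r p) (c p) ∈ (Fh β E w).range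
    rw [← hk]
    exact single_mem E w p _ k
  rw [h1, sub_zero] at h2
  obtain ⟨b, hb⟩ := h2
  exact ⟨b, by rw [← hb, Fh_apply]⟩

theorem proj_act {E N : Subgroup H} (hE : E ≤ N) (w : H) (b : β × (H ⧸ E) →₀ ℤ) :
    proj hE (act E w b) = act N w (proj hE b) := by
  unfold proj act
  rw [← Finsupp.mapDomain_comp, ← Finsupp.mapDomain_comp]
  congr 1
  funext p
  obtain ⟨i, x⟩ := p
  induction x using QuotientGroup.induction_on with
  | H g => rfl

theorem proj_sub {E N : Subgroup H} (hE : E ≤ N) (a b : β × (H ⧸ E) →₀ ℤ) :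
    proj hE (a - b) = proj hE a - proj hE b :=
  map_sub (Finsupp.mapDomain.addMonoidHom
    fun p : β × (H ⧸ E) => (p.1, Subgroup.quotientMapOfLE hE p.2)) a b

theorem inv_zero (N : Subgroup H) (hN : N.Normal) (w : H)
    (hw : ∀ n ∈ N, w * n = n * w) (hw' : ∀ k : ℤ, w ^ k ∈ N → k = 0) (E : Subgroup H)
    (hE : E ≤ N) (hi : E.relIndex N = 0) (c : β × (H ⧸ E) →₀ ℤ)
    (hc : ∀ n ∈ N, ∃ b, c - act E n c = b - act E w b) : c.mapDomain (cl E w) = 0 := by
  have hcomm : ∀ n ∈ N, ∀ k : ℤ, w ^ k * n = n * w ^ k := by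
    intro n hn k
    have : Commute w n := hw n hn
    exact this.zpow_left k
  have hclw : ∀ p : β × (H ⧸ E), cl E w (aw E w p) = cl E w p := by
    intro p
    refine (cl_eq.2 ⟨1, ?_⟩).symm
    rw [zpow_one]
  -- the action of `n` on the classes
  have hmap : ∀ n ∈ N, ∃ f : Quotient (wset β E w) → Quotient (wset β E w),
      Function.Injective f ∧ ∀ p, f (cl E w p) = cl E w (aw E n p) := by
    intro n hn
    refine ⟨Quotient.lift (fun p => cl E w (aw E n p)) ?_, ?_, fun p => rfl⟩
    · rintro p q ⟨k, hk⟩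
      refine cl_eq.2 ⟨k, ?_⟩
      rw [← aw_mul, hcomm n hn k, aw_mul, hk]
    · intro x y
      induction x using Quotient.inductionOn with
      | h p =>
        induction y using Quotient.inductionOn with
        | h q =>
          intro h
          obtain ⟨k, hk⟩ := cl_eq.1 h
          refine cl_eq.2 ⟨k, ?_⟩
          rw [← aw_mul, hcomm n hn k, aw_mul] at hk
          have h2 := congrArg (aw E n⁻¹) hk
          rwa [← aw_mul, ← aw_mul E n⁻¹ n q, inv_mul_cancel, aw_one, aw_one] at h2
  set cb := c.mapDomain (cl E w) with hcb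
  have hinv : ∀ n ∈ N, ∀ p : β × (H ⧸ E), cb (cl E w (aw E n p)) = cb (cl E w p) := by
    intro n hn p
    obtain ⟨f, hf, hf2⟩ := hmap n hn
    obtain ⟨b, hb⟩ := hc n hn
    have h1 : cb.mapDomain f = cb := by
      have e1 : cb.mapDomain f = (act E n c).mapDomain (cl E w) := by
        rw [hcb, act_eq, ← Finsupp.mapDomain_comp, ← Finsupp.mapDomain_comp]
        congr 1
        funext q
        exact hf2 q
      have e2 : act E n c = c - (b - act E w b) := by
        rw [← hb]
        abel
      have e3 : (act E w b).mapDomain (cl E w) = b.mapDomain (cl E w) := by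
        rw [act_eq, ← Finsupp.mapDomain_comp]
        congr 1
        funext q
        exact hclw q
      have e4 : ∀ x y : β × (H ⧸ E) →₀ ℤ,
          (x - y).mapDomain (cl E w) = x.mapDomain (cl E w) - y.mapDomain (cl E w) :=
        fun x y => map_sub (Finsupp.mapDomain.addMonoidHom (cl E w)) x y
      rw [e1, e2, e4, e4, e3, sub_self, sub_zero]
    calc cb (cl E w (aw E n p)) = (cb.mapDomain f) (f (cl E w p)) := by rw [h1, hf2]
      _ = cb (cl E w p) := Finsupp.mapDomain_apply hf _ _
  by_contra hne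
  obtain ⟨y, hy⟩ := Finsupp.ne_iff.1 hne
  induction y using Quotient.inductionOn with
  | h p =>
    obtain ⟨i, x⟩ := p
    induction x using QuotientGroup.induction_on with
    | H g =>
      have hy' : cb (cl E w (i, (g : H ⧸ E))) ≠ 0 := hy
      have hsupp : ∀ m ∈ N, cl E w (i, ((g * m : H) : H ⧸ E)) ∈ cb.support := by
        intro m hm
        rw [Finsupp.mem_support_iff]
        have h1 := hinv (g * m * g⁻¹) (hN.conj_mem m hm g) (i, (g : H ⧸ E))
        have h2 : aw E (g * m * g⁻¹) (i, (g : H ⧸ E)) = (i, ((g * m : H) : H ⧸ E)) := by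
          unfold aw
          have : (g * m * g⁻¹) • (g : H ⧸ E) = ((g * m * g⁻¹ * g : H) : H ⧸ E) := rfl
          rw [this, inv_mul_cancel_right]
        rw [h2] at h1
        rw [h1]
        exact hy'
      have hinj : ∀ m ∈ N, ∀ m' ∈ N, cl E w (i, ((g * m : H) : H ⧸ E)) =
          cl E w (i, ((g * m' : H) : H ⧸ E)) → m⁻¹ * m' ∈ E := by
        intro m hm m' hm' h
        obtain ⟨k, hk⟩ := cl_eq.1 h
        have h1 : ((w ^ k * (g * m) : H) : H ⧸ E) = ((g * m' : H) : H ⧸ E) :=
          congrArg Prod.snd hk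
        rw [QuotientGroup.eq] at h1
        have h2 : (w ^ k * (g * m))⁻¹ * (g * m') = m⁻¹ * (g⁻¹ * (w ^ k)⁻¹ * g) * m' := by
          group
        rw [h2] at h1
        have h3 : g⁻¹ * (w ^ k)⁻¹ * g ∈ N := by
          have h4 := N.mul_mem (N.mul_mem hm (hE h1)) (N.inv_mem hm')
          have h5 : m * (m⁻¹ * (g⁻¹ * (w ^ k)⁻¹ * g) * m') * m'⁻¹ = g⁻¹ * (w ^ k)⁻¹ * g := by
            group
          rwa [h5] at h4
        have h6 : w ^ (-k) ∈ N := by
          have h7 := hN.conj_mem _ h3 g
          have h8 : g * (g⁻¹ * (w ^ k)⁻¹ * g) * g⁻¹ = w ^ (-k) := by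
            group
          rwa [h8] at h7
        have h9 : k = 0 := by
          have := hw' _ h6
          omega
        rw [h9] at h1
        simpa using h1
      have hfin : Finite (N ⧸ E.subgroupOf N) := by
        have hf : Function.Injective (fun q : N ⧸ E.subgroupOf N =>
            (⟨cl E w (i, ((g * (q.out : N) : H) : H ⧸ E)), hsupp _ (q.out : N).2⟩ :
              cb.support)) := by
          intro q q' h
          have h1 := congrArg Subtype.val h
          have h2 := hinj _ (q.out : N).2 _ (q'.out : N).2 h1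
          have h3 : ((q.out : N) : N ⧸ E.subgroupOf N) = ((q'.out : N) : N ⧸ E.subgroupOf N) := by
            rw [QuotientGroup.eq, Subgroup.mem_subgroupOf]
            exact h2
          rw [QuotientGroup.out_eq', QuotientGroup.out_eq'] at h3
          exact h3
        exact Finite.of_injective _ hf
      have hidx : (E.subgroupOf N).index ≠ 0 := Subgroup.index_ne_zero_iff_finite.2 hfin
      exact hidx hi

end OrbitAux

open OrbitAux

theorem orbit_lemma {H β : Type} [Group H] (N : Subgroup H) (hN : N.Normal) (w : H)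
    (hw : ∀ n ∈ N, w * n = n * w) (hw' : ∀ k : ℤ, w ^ k ∈ N → k = 0) (E : Subgroup H)
    (hE : E ≤ N) (hi : E.relIndex N = 0) (c : β × (H ⧸ E) →₀ ℤ)
    (hc : ∀ n ∈ N, ∃ b, c - act E n c = b - act E w b) :
    ∃ b : β × (H ⧸ N) →₀ ℤ, proj hE c = b - act N w b := by
  obtain ⟨b, hb⟩ := coinv E w c (inv_zero N hN w hw hw' E hE hi c hc)
  refine ⟨proj hE b, ?_⟩
  rw [hb, proj_sub, proj_act]

end Helper85.FI
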