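import Pool.Agent.Helper85.FI.Fox
import Pool.Agent.Helper85.FI.Lift
import Pool.Agent.Helper85.FI.Orbit

/-!
# FI-08: a finitely presented group with free quotient and a commuting element (Miller)

PROOF. `N = ker π`. Transport the crossed homomorphism `∂ ∘ π` of `exists_fox` along the bijection `H ⧸ N ≃ FreeGroup α`:
`D : H → (α × (H ⧸ N) →₀ ℤ)`, `IsDer N D`, and `D w ≠ b - act N w b` for all `b` (as `π w ≠ 1`). By `exists_lift` there are
a finitely generated `E ≤ N` and `D'` with `proj ∘ D' = D`. If `E.relIndex N ≠ 0`, then `N` is finitely generated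
(it is a finite union of cosets of `E`: `N = ⟨E, finitely many representatives⟩`). Otherwise put `c = D' w`. For `n ∈ N`:
`D' (w n) = D' (n w)`, i.e. `c + act E w (D' n) = D' n + act E n c`, so `c - act E n c = b - act E w b` with `b = D' n`.
Moreover `w ^ k ∈ N` iff `(π w)^k = 1` iff `k = 0` (free groups are torsion free). `orbit_lemma` gives
`D w = proj c = b - act N w b`. Contradiction.
-/

namespace Helper85.FI

open Helper85.NS

/-- an overgroup of a finitely generated group in which it has finite index -/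
private theorem ml_fg {H : Type} [Group H] {E N : Subgroup H} (hE : E ≤ N) (hfg : E.FG)
    (hi : E.relIndex N ≠ 0) : N.FG := by
  have : (E.subgroupOf N).FiniteIndex := Subgroup.finiteIndex_iff.2 hi
  have hfin : Finite (↥N ⧸ E.subgroupOf N) := Subgroup.finite_quotient_of_finiteIndex
  have hS : (Set.range fun q : ↥N ⧸ E.subgroupOf N => ((q.out : ↥N) : H)).Finite :=
    Set.finite_range _
  have hN : N = E ⊔ Subgroup.closure (Set.range fun q : ↥N ⧸ E.subgroupOf N => ((q.out : ↥N) : H)) := by
    apply le_antisymm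
    · intro n hn
      have h1 : ((QuotientGroup.mk (⟨n, hn⟩ : ↥N) : ↥N ⧸ E.subgroupOf N).out)⁻¹ * ⟨n, hn⟩ ∈
          E.subgroupOf N := by
        rw [← QuotientGroup.eq]
        exact QuotientGroup.out_eq' _
      have h2 : (((QuotientGroup.mk (⟨n, hn⟩ : ↥N) : ↥N ⧸ E.subgroupOf N).out : ↥N) : H)⁻¹ * n ∈ E := by
        have := Subgroup.mem_subgroupOf.1 h1
        exact this
      have h3 : n = (((QuotientGroup.mk (⟨n, hn⟩ : ↥N) : ↥N ⧸ E.subgroupOf N).out : ↥N) : H) *
          ((((QuotientGroup.mk (⟨n, hn⟩ : ↥N) : ↥N ⧸ E.subgroupOf N).out : ↥N) : H)⁻¹ * n) := by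
        group
      rw [h3]
      exact mul_mem (Subgroup.mem_sup_right (Subgroup.subset_closure ⟨_, rfl⟩))
        (Subgroup.mem_sup_left h2)
    · refine sup_le hE ?_
      rw [Subgroup.closure_le]
      rintro _ ⟨q, rfl⟩
      exact q.out.2
  rw [hN]
  refine hfg.sup ?_
  exact (Subgroup.fg_iff _).2 ⟨_, rfl, hS⟩

private theorem ml_sub {α β : Type} (f : α → β) (x y : α →₀ ℤ) :
    (x - y).mapDomain f = x.mapDomain f - y.mapDomain f :=
  (Finsupp.mapDomain.addMonoidHom (M := ℤ) f).map_sub x y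

theorem miller {H α : Type} [Group H] (hH : Group.IsFinitelyPresented H) (π : H →* FreeGroup α)
    (hπ : Function.Surjective π) (w : H) (hw : π w ≠ 1) (hc : ∀ n ∈ π.ker, w * n = n * w) :
    π.ker.FG := by
  obtain ⟨D₀, hD₀, hno⟩ := exists_fox α
  set N : Subgroup H := π.ker with hN
  have hNn : N.Normal := MonoidHom.normal_ker π
  set φ : H ⧸ N ≃* FreeGroup α := QuotientGroup.quotientKerEquivOfSurjective π hπ with hφ
  have hφm : ∀ h : H, φ (QuotientGroup.mk h) = π h := fun h => rfl
  have hφs : ∀ (g : H) (x : H ⧸ N), φ (g • x) = π g * φ x := by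
    intro g x
    obtain ⟨h, rfl⟩ := QuotientGroup.mk_surjective x
    have h1 : g • (QuotientGroup.mk h : H ⧸ N) = QuotientGroup.mk (g * h) := rfl
    rw [h1, hφm, hφm, map_mul]
  have hφs' : ∀ (g : H) (x : FreeGroup α), φ.symm (π g * x) = g • φ.symm x := by
    intro g x
    apply φ.injective
    rw [hφs, MulEquiv.apply_symm_apply, MulEquiv.apply_symm_apply]
  set D : H → (α × (H ⧸ N) →₀ ℤ) := fun h =>
    (D₀ (π h)).mapDomain (fun p => (p.1, φ.symm p.2)) with hD
  have hDer : IsDer N D := by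
    intro g h
    show (D₀ (π (g * h))).mapDomain (fun p => (p.1, φ.symm p.2)) = _
    rw [map_mul, hD₀, Finsupp.mapDomain_add, ← Finsupp.mapDomain_comp]
    show _ = (D₀ (π g)).mapDomain (fun p => (p.1, φ.symm p.2)) +
      ((D₀ (π h)).mapDomain (fun p => (p.1, φ.symm p.2))).mapDomain fun p => (p.1, g • p.2)
    rw [← Finsupp.mapDomain_comp]
    congr 2
    funext p
    show (p.1, φ.symm (π g * p.2)) = (p.1, g • φ.symm p.2)
    rw [hφs']
  have hDno : ∀ b : α × (H ⧸ N) →₀ ℤ, D w ≠ b - act N w b := by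
    intro b hb
    apply hno (π w) hw
    refine ⟨b.mapDomain (fun p => (p.1, φ p.2)), ?_⟩
    have h1 : D₀ (π w) = (D w).mapDomain (fun p => (p.1, φ p.2)) := by
      show _ = ((D₀ (π w)).mapDomain (fun p => (p.1, φ.symm p.2))).mapDomain (fun p => (p.1, φ p.2))
      rw [← Finsupp.mapDomain_comp]
      have h2 : ((fun p : α × (H ⧸ N) => (p.1, φ p.2)) ∘
          fun p : α × FreeGroup α => (p.1, φ.symm p.2)) = id := by
        funext p
        show (p.1, φ (φ.symm p.2)) = p
        rw [MulEquiv.apply_symm_apply]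
      rw [h2, Finsupp.mapDomain_id]
    rw [h1, hb, ml_sub]
    congr 1
    show ((b.mapDomain fun p => (p.1, w • p.2))).mapDomain (fun p => (p.1, φ p.2)) = _
    rw [← Finsupp.mapDomain_comp, ← Finsupp.mapDomain_comp]
    congr 1
    funext p
    show (p.1, φ (w • p.2)) = (p.1, π w * φ p.2)
    rw [hφs]
  obtain ⟨E, hE, hEfg, D', hD', hproj⟩ := exists_lift hH N hNn D hDer
  by_cases hi : E.relIndex N = 0
  · exfalso
    have hw' : ∀ k : ℤ, w ^ k ∈ N → k = 0 := by
      intro k hk
      by_contra hk0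
      apply hw
      have h1 : π w ^ k = 1 := by
        rw [← map_zpow]
        exact hk
      exact (IsMulTorsionFree.zpow_eq_one_iff_left hk0).1 h1
    obtain ⟨b, hb⟩ := orbit_lemma N hNn w hc hw' E hE hi (D' w) (by
      intro n hn
      refine ⟨D' n, ?_⟩
      have h1 : D' (w * n) = D' (n * w) := by rw [hc n hn]
      rw [hD' w n, hD' n w] at h1
      rw [sub_eq_sub_iff_add_eq_add]
      exact h1)
    rw [hproj] at hb
    exact hDno b hb
  · exact ml_fg hE hEfg hi

end Helper85.FI
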