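import Pool.Agent.Helper85.FI.SepBasic

/-!
# FI-09: finitely generated subgroups of products of LERF groups

PROOF. `N_A = {a | (a, 1) ∈ H}`, `A₀ = p_A(H)`, `F₀ = p_F(H)` (finitely generated). Let `(a, f) ∉ H`. If `a ∉ A₀` use
that `A₀` is separable (`K × F`). Otherwise there is `f'` with `(a, f') ∈ H`; put `v = f'⁻¹ f`; `(1, v) ∉ H`, and it is
enough to find a subgroup of finite index containing `H` and not `(1, v)`. If `v ∉ F₀` use that `F₀` is
separable. Otherwise there is `a_v` with `(a_v, v) ∈ H`, and `a_v ∉ N_A` (else `(1, v) ∈ H`). By `separable_iff` there is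
a normal subgroup `V` of finite index of `A` with `a_v ∉ N_A V`. Let `D = p_F (H ⊓ (V × F))`: `H ⊓ (V × F)` has finite index
in `H`, so it is finitely generated, and so is `D`. `v ∉ D`: if `(h, v) ∈ H` with `h ∈ V`, then `(a_v h⁻¹, 1) ∈ H`,
`a_v ∈ N_A V`. As `F` is LERF there is a normal subgroup `N'` of finite index of `F` with `v ∉ D N'`. The subgroup
`W = H (V × N')` has finite index, contains `H`, and `(1, v) ∉ W`: if `(1, v) = (h, k) (u, n)` with `(h, k) ∈ H`, `u ∈ V`, `n ∈ N'`,
then `h = u⁻¹ ∈ V`, so `k ∈ D` and `v = k n ∈ D N'`.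
-/

namespace Helper85.FI

open Helper85.NS

private theorem fg_map {G G' : Type} [Group G] [Group G'] (f : G →* G') {H : Subgroup G}
    (hH : H.FG) : (H.map f).FG := by
  rw [Subgroup.fg_iff_submonoid_fg] at hH ⊢
  exact hH.map f

private theorem fin_comap {G G' : Type} [Group G] [Group G'] (f : G →* G') (K : Subgroup G')
    (hK : K.FiniteIndex) : (K.comap f).FiniteIndex := by
  refine ⟨?_⟩
  rw [Subgroup.index_comap]
  exact (Subgroup.instFiniteIndex_subgroupOf K f.range).index_ne_zero

private theorem fg_inf {G : Type} [Group G] (H K : Subgroup G) (hH : H.FG)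
    (hK : K.FiniteIndex) : (H ⊓ K).FG := by
  have : Group.FG H := (Group.fg_iff_subgroup_fg H).mpr hH
  have : (K.subgroupOf H).FiniteIndex := inferInstance
  have h1 : Group.FG (K.subgroupOf H) := inferInstance
  have h2 : (K.subgroupOf H).FG := (Group.fg_iff_subgroup_fg _).mp h1
  have h3 := fg_map H.subtype h2
  rw [Subgroup.subgroupOf_map_subtype, inf_comm] at h3
  exact h3

private theorem sep_one {A F : Type} [Group A] [Group F] (hF : LERF F)
    (H : Subgroup (A × F)) (hH : H.FG) (hN : Separable (H.comap (MonoidHom.inl A F)))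
    (v : F) (hv : ((1 : A), v) ∉ H) :
    ∃ K : Subgroup (A × F), K.FiniteIndex ∧ H ≤ K ∧ ((1 : A), v) ∉ K := by
  by_cases hF0 : v ∈ H.map (MonoidHom.snd A F)
  · obtain ⟨y, hyH, hyv⟩ := hF0
    obtain ⟨b, v'⟩ := y
    have hyv' : v' = v := hyv
    subst hyv'
    have hb : (b, v') ∈ H := hyH
    have hbN : b ∉ H.comap (MonoidHom.inl A F) := by
      intro h
      have h' : (b, (1 : F)) ∈ H := h
      apply hv
      have := H.mul_mem (H.inv_mem h') hb
      simpa using this
    obtain ⟨V, hVn, hVf, hbV⟩ := (separable_iff _).mp hN b hbN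
    set D : Subgroup F := (H ⊓ V.comap (MonoidHom.fst A F)).map (MonoidHom.snd A F) with hD
    have hDfg : D.FG := fg_map _ (fg_inf H _ hH (fin_comap _ V hVf))
    have hvD : v' ∉ D := by
      rintro ⟨⟨h, w⟩, ⟨hwH, hwV⟩, hwv⟩
      have hwv' : w = v' := hwv
      subst hwv'
      have hwH' : (h, w) ∈ H := hwH
      have hwV' : h ∈ V := hwV
      apply hbV
      have h1 : b * h⁻¹ ∈ H.comap (MonoidHom.inl A F) := by
        show (b * h⁻¹, (1 : F)) ∈ H
        have := H.mul_mem hb (H.inv_mem hwH')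
        simpa using this
      have h2 : b = (b * h⁻¹) * h := by group
      rw [h2]
      exact Subgroup.mul_mem _ (Subgroup.mem_sup_left h1) (Subgroup.mem_sup_right hwV')
    obtain ⟨N, hNn, hNf, hvN⟩ := (separable_iff _).mp (hF D hDfg) v' hvD
    set P : Subgroup (A × F) :=
      V.comap (MonoidHom.fst A F) ⊓ N.comap (MonoidHom.snd A F) with hP
    have hPn : P.Normal := inferInstance
    have hPf : P.FiniteIndex := by
      have h1 := fin_comap (MonoidHom.fst A F) V hVf
      have h2 := fin_comap (MonoidHom.snd A F) N hNf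
      exact inferInstance
    refine ⟨H ⊔ P, Subgroup.finiteIndex_of_le le_sup_right, le_sup_left, fun h => hvN ?_⟩
    obtain ⟨⟨h₁, k⟩, hy, ⟨u, n⟩, hz, hyz⟩ := Subgroup.mem_sup_of_normal_right.mp h
    have e1 : h₁ * u = 1 := congrArg Prod.fst hyz
    have e2 : k * n = v' := congrArg Prod.snd hyz
    have huV : u ∈ V := hz.1
    have hnN : n ∈ N := hz.2
    have hh : h₁ ∈ V := by
      have : h₁ = u⁻¹ := eq_inv_of_mul_eq_one_left e1
      rw [this]
      exact V.inv_mem huV
    have hkD : k ∈ D := ⟨(h₁, k), ⟨hy, hh⟩, rfl⟩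
    rw [← e2]
    exact Subgroup.mul_mem _ (Subgroup.mem_sup_left hkD) (Subgroup.mem_sup_right hnN)
  · obtain ⟨K, hK, hHK, hvK⟩ := hF _ (fg_map (MonoidHom.snd A F) hH) v hF0
    exact ⟨K.comap (MonoidHom.snd A F), fin_comap _ K hK, Subgroup.map_le_iff_le_comap.mp hHK,
      fun h => hvK h⟩

theorem prod_separable {A F : Type} [Group A] [Group F] (hA : LERF A) (hF : LERF F)
    (H : Subgroup (A × F)) (hH : H.FG) (hN : Separable (H.comap (MonoidHom.inl A F))) :
    Separable H := by
  intro x hx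
  obtain ⟨a, f⟩ := x
  by_cases hA0 : a ∈ H.map (MonoidHom.fst A F)
  · obtain ⟨y, hyH, hya⟩ := hA0
    obtain ⟨a', f'⟩ := y
    have hya' : a' = a := hya
    subst hya'
    have hyH' : (a', f') ∈ H := hyH
    have hv : ((1 : A), f'⁻¹ * f) ∉ H := by
      intro h
      apply hx
      have := H.mul_mem hyH' h
      simpa using this
    obtain ⟨K, hK, hHK, hvK⟩ := sep_one hF H hH hN (f'⁻¹ * f) hv
    refine ⟨K, hK, hHK, fun h => hvK ?_⟩
    have := K.mul_mem (K.inv_mem (hHK hyH')) h
    simpa using this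
  · obtain ⟨K, hK, hHK, haK⟩ := hA _ (fg_map (MonoidHom.fst A F) hH) a hA0
    exact ⟨K.comap (MonoidHom.fst A F), fin_comap _ K hK, Subgroup.map_le_iff_le_comap.mp hHK,
      fun h => haK h⟩

end Helper85.FI
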