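import Pool.Agent.Helper85.FI.SepFp
import Pool.Agent.Helper85.FI.MHall
import Pool.Agent.Helper85.FI.Miller
import Pool.Agent.Helper85.FI.ProdSep

/-!
# FI-10: finitely presented subgroups of `A × F`, `A` LERF, `F` free

PROOF. Let `H ≤ A × F` be finitely presented, so finitely generated. By `prod_separable` it is enough that
`N_A = {a | (a, 1) ∈ H}` is separable in `A`. `A₀ = p_A(H)` is finitely generated, so separable in `A`.
Case 1: no `(1, f) ∈ H` with `f ≠ 1`. Let `a ∉ N_A`; if `a ∉ A₀` done. Otherwise `(a, f) ∈ H` for a unique `f`, `f ≠ 1` (as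
`a ∉ N_A`). `F` is LERF, so there is a normal subgroup `V` of finite index of `F` with `f ∉ V` (separability of the trivial
subgroup). `B = {b | ∃ v ∈ V, (b, v) ∈ H}` has finite index in `A₀`, so it is finitely generated, so separable in `A`; it contains
`N_A`, and `a ∉ B` (uniqueness of `f`).
Case 2: `(1, f) ∈ H`, `f ≠ 1`. Let `F₀ = p_F(H)`, a free group (Nielsen–Schreier, `IsFreeGroup`), `π : H → F₀ ≃* FreeGroup X`
surjective; its kernel is `{(a, 1) ∈ H}`, and `w = (1, f)` commutes with it and `π w ≠ 1`. By `miller` the kernel is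
finitely generated, hence so is `N_A`, which is separable as `A` is LERF.
-/

namespace Helper85.FI

open Helper85.NS

private theorem fgmap {G G' : Type} [Group G] [Group G'] {P : Subgroup G} (hP : P.FG)
    (f : G →* G') : (P.map f).FG := by
  rw [Subgroup.fg_iff_submonoid_fg] at hP ⊢
  exact hP.map f

private theorem case_one {A : Type} [Group A] (hA : LERF A) (α : Type)
    (H : Subgroup (A × FreeGroup α)) (hH : H.FG) (h1 : ∀ f, (1, f) ∈ H → f = 1) :
    Separable (H.comap (MonoidHom.inl A (FreeGroup α))) := by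
  intro a ha
  have ha1 : (a, (1 : FreeGroup α)) ∉ H := ha
  by_cases ha0 : a ∈ H.map (MonoidHom.fst A (FreeGroup α))
  · obtain ⟨⟨a', f⟩, hf, rfl⟩ := ha0
    change (a', f) ∈ H at hf
    change (a', (1 : FreeGroup α)) ∉ H at ha1
    have hf1 : f ≠ 1 := by
      rintro rfl
      exact ha1 hf
    obtain ⟨V, hV1, hV2, hV3⟩ := (separable_iff (⊥ : Subgroup (FreeGroup α))).1
      (freeGroup_lerf α ⊥ Subgroup.FG.bot) f (by rwa [Subgroup.mem_bot])
    rw [bot_sup_eq] at hV3
    have hfi0 : (V.comap (MonoidHom.snd A (FreeGroup α))).FiniteIndex := by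
      constructor
      rw [Subgroup.index_comap]
      exact (inferInstance : (V.subgroupOf (MonoidHom.snd A (FreeGroup α)).range).FiniteIndex).index_ne_zero
    have hfi : ((V.comap (MonoidHom.snd A (FreeGroup α))).subgroupOf H).FiniteIndex := by
      infer_instance
    have hHg : Group.FG H := (Group.fg_iff_subgroup_fg H).2 hH
    have hKg : Group.FG ((V.comap (MonoidHom.snd A (FreeGroup α))).subgroupOf H) :=
      Subgroup.fg_of_index_ne_zero _
    have hK := (Group.fg_iff_subgroup_fg _).1 hKg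
    have hB : (((V.comap (MonoidHom.snd A (FreeGroup α))).subgroupOf H).map
        ((MonoidHom.fst A (FreeGroup α)).comp H.subtype)).FG := fgmap hK _
    obtain ⟨K, hK1, hK2, hK3⟩ := hA _ hB a' (by
      rintro ⟨⟨⟨b, v⟩, hb⟩, hbv, hba⟩
      change b = a' at hba
      subst hba
      have hv : v ∈ V := hbv
      have h2 : (1, f * v⁻¹) ∈ H := by
        have := H.mul_mem hf (H.inv_mem hb)
        simpa using this
      have h3 := h1 _ h2
      rw [mul_inv_eq_one] at h3
      exact hV3 (h3 ▸ hv))
    refine ⟨K, hK1, ?_, hK3⟩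
    intro b hb
    apply hK2
    exact ⟨⟨(b, 1), hb⟩, V.one_mem, rfl⟩
  · obtain ⟨K, hK1, hK2, hK3⟩ := hA _ (fgmap hH (MonoidHom.fst A (FreeGroup α))) a ha0
    refine ⟨K, hK1, ?_, hK3⟩
    intro b hb
    exact hK2 ⟨(b, 1), hb, rfl⟩

private theorem case_two {A : Type} [Group A] (hA : LERF A) (α : Type)
    (H : Subgroup (A × FreeGroup α)) (hH : Group.IsFinitelyPresented H) (f : FreeGroup α)
    (hf : (1, f) ∈ H) (hf1 : f ≠ 1) :
    Separable (H.comap (MonoidHom.inl A (FreeGroup α))) := by
  let F₀ : Subgroup (FreeGroup α) := H.map (MonoidHom.snd A (FreeGroup α))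
  let e : F₀ ≃* FreeGroup (IsFreeGroup.Generators F₀) := IsFreeGroup.toFreeGroup F₀
  let σ : H →* F₀ := (MonoidHom.snd A (FreeGroup α)).subgroupMap H
  have hσ : Function.Surjective σ := MonoidHom.subgroupMap_surjective _ _
  let π : H →* FreeGroup (IsFreeGroup.Generators F₀) := e.toMonoidHom.comp σ
  have hker : ∀ x : H, x ∈ π.ker ↔ (x : A × FreeGroup α).2 = 1 := by
    intro x
    rw [MonoidHom.mem_ker]
    change e (σ x) = 1 ↔ _
    rw [map_eq_one_iff e e.injective, Subtype.ext_iff]
    rfl
  have hm := miller hH π (e.surjective.comp hσ) ⟨(1, f), hf⟩ (by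
    intro h
    exact hf1 ((hker _).1 h)) (by
    intro n hn
    have h2 := (hker n).1 hn
    apply Subtype.ext
    apply Prod.ext
    · simp
    · change f * (n : A × FreeGroup α).2 = (n : A × FreeGroup α).2 * f
      rw [h2, mul_one, one_mul])
  have hN : (H.comap (MonoidHom.inl A (FreeGroup α))) =
      π.ker.map ((MonoidHom.fst A (FreeGroup α)).comp H.subtype) := by
    ext a
    constructor
    · intro ha
      exact ⟨⟨(a, 1), ha⟩, (hker _).2 rfl, rfl⟩
    · rintro ⟨⟨⟨b, v⟩, hb⟩, hbv, rfl⟩
      have h2 : v = 1 := (hker _).1 hbv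
      subst h2
      exact hb
  rw [hN]
  exact hA _ (fgmap hm _)

theorem fpsep_prod_free {A : Type} [Group A] (hA : LERF A) (α : Type) :
    FPSep (A × FreeGroup α) := by
  intro H hH
  have hFG : Group.FG H := by
    obtain ⟨n, φ, hφ, -⟩ := hH.out
    exact Group.fg_of_surjective hφ
  have hHFG : H.FG := (Group.fg_iff_subgroup_fg H).1 hFG
  apply prod_separable hA (freeGroup_lerf α) H hHFG
  by_cases h : ∀ f, (1, f) ∈ H → f = 1
  · exact case_one hA α H hHFG h
  · push Not at h
    obtain ⟨f, hf, hf1⟩ := h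
    exact case_two hA α H hH f hf hf1

end Helper85.FI
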