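import Pool.Agent.Helper85.FI.ProdFree
import Pool.Agent.Helper85.FI.Double

/-!
# FI-12: doubles of LERF groups along subgroups of finite index

PROOF. `fpsep_semidirect`: `B = φ.ker` has finite index in `Γ` and is LERF (`lerf_of_injective`). The subgroup
`K = {g | g.right ∈ B}` of the semidirect product has finite index (comap of `B` under `rightHom`) and
`B × FreeGroup α ≃* K`, `(b, f) ↦ ⟨f, b⟩` (as `φ b = 1` the product is componentwise). Use `fpsep_prod_free`,
`fpsep_of_injective` and `fpsep_of_finiteIndex`. `fpsep_double`: `exists_double` (`A.normalCore` has finite index).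
-/

namespace Helper85.FI

open Helper85.NS

theorem fpsep_semidirect {α Γ : Type} [Group Γ] (hΓ : LERF Γ) (φ : Γ →* MulAut (FreeGroup α))
    (hφ : φ.ker.FiniteIndex) : FPSep (FreeGroup α ⋊[φ] Γ) := by
  have hB : LERF φ.ker := lerf_of_injective φ.ker.subtype φ.ker.subtype_injective hΓ
  let K : Subgroup (FreeGroup α ⋊[φ] Γ) := φ.ker.comap SemidirectProduct.rightHom
  have hK : K.FiniteIndex := by
    refine ⟨?_⟩
    rw [Subgroup.index_comap]
    exact fun h0 => hφ.index_ne_zero (Subgroup.index_eq_zero_of_relIndex_eq_zero h0)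
  have hker : ∀ g : K, φ g.1.right = 1 := fun g => g.2
  let ψ : K →* φ.ker × FreeGroup α :=
    { toFun := fun g => (⟨g.1.right, g.2⟩, g.1.left)
      map_one' := rfl
      map_mul' := by
        intro g h
        refine Prod.ext (Subtype.ext rfl) ?_
        change g.1.left * φ g.1.right h.1.left = g.1.left * h.1.left
        rw [hker g]
        rfl }
  have hψ : Function.Injective ψ := by
    intro g h hgh
    have h1 := congrArg (fun x => (x.1 : Γ)) hgh
    have h2 := congrArg Prod.snd hgh
    exact Subtype.ext (SemidirectProduct.ext h2 h1)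
  exact fpsep_of_finiteIndex K hK (fpsep_of_injective ψ hψ (fpsep_prod_free hB α))

theorem fpsep_double {Γ : Type} [Group Γ] (hΓ : LERF Γ) (A : Subgroup Γ) (hA : A.FiniteIndex) :
    FPSep (Amalgam A.subtype A.subtype) := by
  obtain ⟨φ, hle, ⟨e⟩⟩ := exists_double A
  have : φ.ker.FiniteIndex := Subgroup.finiteIndex_of_le hle
  exact fpsep_of_injective e.toMonoidHom e.injective (fpsep_semidirect hΓ φ this)

end Helper85.FI
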