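import Pool.Agent.Helper85.FI.Defs

/-!
# FI-02: basic facts on separable subgroups

PROOFS. `separable_iff`: take the normal core of `K` (index finite, normal); `g ∉ H ⊔ core` as `H ⊔ core ≤ K`.
`separable_of_map`: comap of the finite index subgroup. `separable_map_subtype`: a subgroup of finite index
of `K` is of finite index in `G`; an element outside `K` is excluded by `K` itself. `separable_of_relIndex`: `H` is the
union of finitely many cosets `h_i H₀`; for `g ∉ H` all `h_i⁻¹ g ∉ H₀`, take normal subgroups `N_i` of finite index with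
`h_i⁻¹ g ∉ H₀ N_i` and `N = ⋂ N_i`: `g ∉ H N` (otherwise `g = h_i h₀ n`). `separable_inf`: intersect.
-/

namespace Helper85.FI

open Helper85.NS

theorem separable_iff {G : Type} [Group G] (H : Subgroup G) : Separable H ↔
    ∀ g, g ∉ H → ∃ N : Subgroup G, N.Normal ∧ N.FiniteIndex ∧ g ∉ H ⊔ N := by
  constructor
  · intro h g hg
    obtain ⟨K, hK, hHK, hgK⟩ := h g hg
    refine ⟨K.normalCore, K.normalCore_normal, inferInstance, fun hc => hgK ?_⟩
    exact sup_le hHK K.normalCore_le hc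
  · intro h g hg
    obtain ⟨N, _, hN, hgN⟩ := h g hg
    exact ⟨H ⊔ N, Subgroup.finiteIndex_of_le (le_sup_right : N ≤ H ⊔ N), le_sup_left, hgN⟩

theorem separable_of_map {G G' : Type} [Group G] [Group G'] (φ : G →* G')
    (hφ : Function.Injective φ) (H : Subgroup G) (h : Separable (H.map φ)) : Separable H := by
  intro g hg
  have hg' : φ g ∉ H.map φ := by
    rintro ⟨x, hx, hxg⟩
    exact hg (hφ hxg ▸ hx)
  obtain ⟨K, hK, hHK, hgK⟩ := h (φ g) hg'
  refine ⟨K.comap φ, ⟨?_⟩, fun x hx => hHK ⟨x, hx, rfl⟩, hgK⟩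
  rw [Subgroup.index_comap]
  exact fun h0 => hK.index_ne_zero (Subgroup.index_eq_zero_of_relIndex_eq_zero h0)

theorem separable_map_subtype {G : Type} [Group G] (K : Subgroup G) (hK : K.FiniteIndex)
    (H : Subgroup K) (h : Separable H) : Separable (H.map K.subtype) := by
  intro g hg
  by_cases hgK : g ∈ K
  · have hg' : (⟨g, hgK⟩ : K) ∉ H := fun hc => hg ⟨_, hc, rfl⟩
    obtain ⟨L, hL, hHL, hgL⟩ := h _ hg'
    refine ⟨L.map K.subtype, ⟨?_⟩, Subgroup.map_mono hHL, ?_⟩
    · rw [Subgroup.index_map_subtype]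
      exact mul_ne_zero hL.index_ne_zero hK.index_ne_zero
    · rintro ⟨x, hx, hxg⟩
      apply hgL
      have : x = ⟨g, hgK⟩ := Subtype.ext hxg
      rwa [← this]
  · exact ⟨K, hK, Subgroup.map_subtype_le H, hgK⟩

theorem separable_of_relIndex {G : Type} [Group G] (H₀ H : Subgroup G) (hle : H₀ ≤ H)
    (hi : H₀.relIndex H ≠ 0) (h : Separable H₀) : Separable H := by
  rw [separable_iff] at h ⊢
  intro g hg
  have hfi : (H₀.subgroupOf H).FiniteIndex := ⟨hi⟩
  have hfin : Finite (H ⧸ H₀.subgroupOf H) := inferInstance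
  have hnot : ∀ q : H ⧸ H₀.subgroupOf H, ((q.out : H) : G)⁻¹ * g ∉ H₀ := by
    intro q hc
    apply hg
    have h1 := H.mul_mem (q.out : H).2 (hle hc)
    rwa [mul_inv_cancel_left] at h1
  choose N hN hNf hNg using fun q : H ⧸ H₀.subgroupOf H => h _ (hnot q)
  have hNn : (⨅ q, N q).Normal := Subgroup.normal_iInf_normal hN
  refine ⟨⨅ q, N q, hNn, Subgroup.finiteIndex_iInf fun q => hNf q, fun hc => ?_⟩
  obtain ⟨x, hx, y, hy, hxy⟩ := Subgroup.mem_sup_of_normal_right.mp hc
  let q : H ⧸ H₀.subgroupOf H := QuotientGroup.mk ⟨x, hx⟩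
  have h1 : (q.out : H)⁻¹ * ⟨x, hx⟩ ∈ H₀.subgroupOf H :=
    QuotientGroup.eq.mp (Quotient.out_eq' q)
  have h2 : ((q.out : H) : G)⁻¹ * x ∈ H₀ := h1
  apply hNg q
  rw [← hxy, ← mul_assoc]
  exact (H₀ ⊔ N q).mul_mem (Subgroup.mem_sup_left h2)
    (Subgroup.mem_sup_right (Subgroup.mem_iInf.mp hy q))

theorem separable_inf {G : Type} [Group G] (H K : Subgroup G) (hH : Separable H)
    (hK : Separable K) : Separable (H ⊓ K) := by
  intro g hg
  by_cases h : g ∈ H
  · have h' : g ∉ K := fun hc => hg ⟨h, hc⟩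
    obtain ⟨L, hL, hKL, hgL⟩ := hK g h'
    exact ⟨L, hL, inf_le_right.trans hKL, hgL⟩
  · obtain ⟨L, hL, hHL, hgL⟩ := hH g h
    exact ⟨L, hL, inf_le_left.trans hHL, hgL⟩

end Helper85.FI
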