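import Pool.Agent.Helper85.FI.SepBasic
import Pool.Agent.Helper85.FI.FpIndex

/-!
# FI-03: permanence of `LERF` and `FPSep`

PROOFS. Under an injective homomorphism `φ` a subgroup `H` is isomorphic to `H.map φ`; use `separable_of_map`.
`fpsep_of_finiteIndex`: for `H` finitely presented, `H ⊓ K` has finite index in `H`, so `(H ⊓ K).subgroupOf H` is finitely
presented (`fp_of_finiteIndex`), hence so is `H.subgroupOf K` (isomorphic), hence separable in `K`,
so `H ⊓ K` is separable in `G` (`separable_map_subtype`), and `separable_of_relIndex` applies.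
-/

namespace Helper85.FI

open Helper85.NS

theorem lerf_of_injective {G G' : Type} [Group G] [Group G'] (φ : G →* G')
    (hφ : Function.Injective φ) (h : LERF G') : LERF G := by
  intro H hH
  refine separable_of_map φ hφ H (h _ ?_)
  obtain ⟨S, hS, hfin⟩ := (Subgroup.fg_iff H).1 hH
  rw [Subgroup.fg_iff]
  refine ⟨φ '' S, ?_, hfin.image φ⟩
  rw [← MonoidHom.map_closure, hS]

theorem fpsep_of_injective {G G' : Type} [Group G] [Group G'] (φ : G →* G')
    (hφ : Function.Injective φ) (h : FPSep G') : FPSep G := by
  intro H hH
  refine separable_of_map φ hφ H (h _ ?_)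
  exact Group.IsFinitelyPresented.equiv (H.equivMapOfInjective φ hφ)

theorem fpsep_of_finiteIndex {G : Type} [Group G] (K : Subgroup G) (hK : K.FiniteIndex)
    (h : FPSep K) : FPSep G := by
  intro H hH
  have h1 : (K.subgroupOf H).FiniteIndex := inferInstance
  have h2 : Group.IsFinitelyPresented (K.subgroupOf H) := fp_of_finiteIndex hH _ h1
  have e1 : (K.subgroupOf H).map H.subtype = (H.subgroupOf K).map K.subtype := by
    rw [Subgroup.subgroupOf_map_subtype, Subgroup.subgroupOf_map_subtype, inf_comm]
  have e : (K.subgroupOf H) ≃* (H.subgroupOf K) :=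
    (((K.subgroupOf H).equivMapOfInjective H.subtype H.subtype_injective).trans
      (MulEquiv.subgroupCongr e1)).trans
      ((H.subgroupOf K).equivMapOfInjective K.subtype K.subtype_injective).symm
  have h3 : Group.IsFinitelyPresented (H.subgroupOf K) := Group.IsFinitelyPresented.equiv e
  have h4 : Separable (H ⊓ K) := by
    have := separable_map_subtype K hK _ (h _ h3)
    rwa [Subgroup.subgroupOf_map_subtype] at this
  refine separable_of_relIndex (H ⊓ K) H inf_le_left ?_ h4
  rw [Subgroup.inf_relIndex_left]
  intro h0
  exact hK.index_ne_zero (Subgroup.index_eq_zero_of_relIndex_eq_zero h0)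

end Helper85.FI
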